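import Mathlib

/-! Algebraic independence of solutions of linear differential equations of order one
over a differential subring (the argument of Ostrowski and Kolchin), without fractions. -/

open Polynomial

set_option linter.unusedSectionVars false

namespace Q57.LM

variable {k₀ R : Type*} [CommRing k₀] [CommRing R] [Algebra k₀ R] [IsDomain R] [CharZero R]

/-- all coefficients lie in `S` -/
def CoefIn (S : Subring R) (p : R[X]) : Prop := ∀ i, p.coeff i ∈ S

/-- the derivation of `R[X]` extending `d` with `X ↦ a X + b` -/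
noncomputable def DD (d : Derivation k₀ R R) (a b : R) (p : R[X]) : R[X] :=
  (∑ i ∈ Finset.range (p.natDegree + 1), monomial i (d (p.coeff i)))
    + derivative p * (C a * X + C b)

theorem coeff_DD (d : Derivation k₀ R R) (a b : R) (p : R[X]) (n : ℕ) :
    (DD d a b p).coeff n = d (p.coeff n) + (n : R) * a * p.coeff n
      + ((n : R) + 1) * b * p.coeff (n + 1) := by
  unfold DD
  rw [coeff_add, finsetSum_coeff]
  have h1 : ∑ i ∈ Finset.range (p.natDegree + 1), (monomial i (d (p.coeff i))).coeff n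
      = d (p.coeff n) := by
    simp only [coeff_monomial]
    rw [Finset.sum_ite_eq']
    split_ifs with h
    · rfl
    · have : p.coeff n = 0 := by
        apply coeff_eq_zero_of_natDegree_lt
        simpa using h
      rw [this, map_zero]
  rw [h1]
  have h2 : (derivative p * (C a * X + C b)).coeff n
      = (n : R) * a * p.coeff n + ((n : R) + 1) * b * p.coeff (n + 1) := by
    have e : derivative p * (C a * X + C b) = C a * (derivative p * X) + C b * derivative p := by
      ring
    rw [e, coeff_add, coeff_C_mul, coeff_C_mul, coeff_derivative]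
    cases n with
    | zero => simp
    | succ m =>
      rw [coeff_mul_X, coeff_derivative]
      push_cast
      ring
  rw [h2]
  ring

theorem eval_DD (d : Derivation k₀ R R) (a b y : R) (hy : d y = a * y + b) (p : R[X]) :
    (DD d a b p).eval y = d (p.eval y) := by
  unfold DD
  rw [eval_add, eval_finsetSum, eval_mul]
  simp only [eval_monomial, eval_add, eval_mul, eval_C, eval_X]
  rw [eval_eq_sum_range (p := p), map_sum]
  rw [← hy, derivative_eval, sum_over_range _ (by intro n; simp), Finset.sum_mul,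
    ← Finset.sum_add_distrib]
  refine Finset.sum_congr rfl fun i _ => ?_
  rw [Derivation.leibniz, Derivation.leibniz_pow]
  simp only [smul_eq_mul, nsmul_eq_mul]
  ring

theorem natDegree_DD_le (d : Derivation k₀ R R) (a b : R) (p : R[X]) :
    (DD d a b p).natDegree ≤ p.natDegree := by
  rw [natDegree_le_iff_coeff_eq_zero]
  intro N hN
  rw [coeff_DD, coeff_eq_zero_of_natDegree_lt hN,
    coeff_eq_zero_of_natDegree_lt (lt_trans hN (Nat.lt_succ_self N))]
  simp

/-- the homogeneous equation with coefficient `l` has no solution in the fractions -/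
def Good (d : Derivation k₀ R R) (l : R) : Prop :=
  ∀ c z : R, c ≠ 0 → c * d z = (d c + l * c) * z → z = 0

/-- `y` is transcendental over `S` -/
def Tr (S : Subring R) (y : R) : Prop := ∀ p : R[X], CoefIn S p → p.eval y = 0 → p = 0

/-- If `y` is algebraic over `S` then `c y = e` with `c ≠ 0` and `e` in `S`. -/
theorem frac_of_alg (d : Derivation k₀ R R) (S : Subring R) (hS : ∀ x ∈ S, d x ∈ S)
    (a b y : R) (ha : a ∈ S) (hb : b ∈ S) (hy : d y = a * y + b) (hg : Good d a)
    (hn : ¬ Tr S y) : ∃ c ∈ S, ∃ e ∈ S, c ≠ 0 ∧ c * y = e := by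
  classical
  -- minimal degree
  have hex : ∃ n, ∃ p : R[X], CoefIn S p ∧ p.eval y = 0 ∧ p ≠ 0 ∧ p.natDegree = n := by
    unfold Tr at hn
    push Not at hn
    obtain ⟨p, h1, h2, h3⟩ := hn
    exact ⟨_, p, h1, h2, h3, rfl⟩
  obtain ⟨p, hpS, hp0, hpne, hpd⟩ := Nat.find_spec hex
  have hmin : ∀ q : R[X], CoefIn S q → q.eval y = 0 → q.natDegree < p.natDegree → q = 0 := by
    intro q h1 h2 h3
    by_contra h4
    rw [hpd] at h3
    exact Nat.find_min hex h3 ⟨q, h1, h2, h4, rfl⟩
  set n := p.natDegree with hn'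
  set c := p.coeff n with hc
  have hc0 : c ≠ 0 := by
    rw [hc, hn']; exact leadingCoeff_ne_zero.mpr hpne
  have hcS : c ∈ S := hpS n
  have hnpos : 0 < n := by
    by_contra h
    have h0 : n = 0 := by omega
    have hp' : p = C c := by
      rw [hc, h0]; exact eq_C_of_natDegree_eq_zero (by omega)
    rw [hp', eval_C] at hp0
    exact hc0 hp0
  -- the reduced polynomial
  set q : R[X] := C c * DD d a b p - C (d c + (n : R) * a * c) * p with hq
  have hqc : ∀ i, q.coeff i = c * (d (p.coeff i) + (i : R) * a * p.coeff i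
      + ((i : R) + 1) * b * p.coeff (i + 1)) - (d c + (n : R) * a * c) * p.coeff i := by
    intro i
    rw [hq, coeff_sub, coeff_C_mul, coeff_C_mul, coeff_DD]
  have hnatS : ∀ k : ℕ, (k : R) ∈ S := fun k => natCast_mem S k
  have hqS : CoefIn S q := by
    intro i
    rw [hqc]
    refine S.sub_mem (S.mul_mem hcS (S.add_mem (S.add_mem (hS _ (hpS i))
      (S.mul_mem (S.mul_mem (hnatS i) ha) (hpS i))) (S.mul_mem (S.mul_mem
      (S.add_mem (hnatS i) S.one_mem) hb) (hpS (i + 1))))) (S.mul_mem (S.add_mem (hS _ hcS)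
      (S.mul_mem (S.mul_mem (hnatS n) ha) hcS)) (hpS i))
  have hq0 : q.eval y = 0 := by
    rw [hq, eval_sub, eval_mul, eval_mul, eval_DD d a b y hy, hp0, map_zero]
    simp
  have hqn : q.natDegree < n := by
    have hle : q.natDegree ≤ n := by
      rw [natDegree_le_iff_coeff_eq_zero]
      intro N hN
      rw [hqc, coeff_eq_zero_of_natDegree_lt hN,
        coeff_eq_zero_of_natDegree_lt (lt_trans hN (Nat.lt_succ_self N))]
      simp
    have hne : q.coeff n = 0 := by
      rw [hqc, coeff_eq_zero_of_natDegree_lt (Nat.lt_succ_self n), ← hc]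
      ring
    rcases lt_or_eq_of_le hle with h | h
    · exact h
    · exfalso
      have : q.leadingCoeff = 0 := by
        unfold leadingCoeff; rw [h]; exact hne
      rw [leadingCoeff_eq_zero] at this
      rw [this] at h
      simp at h
      omega
  have hqz := hmin q hqS hq0 hqn
  -- coefficient n - 1
  obtain ⟨m, hm⟩ : ∃ m, n = m + 1 := ⟨n - 1, by omega⟩
  have hk := hqc m
  rw [hqz, coeff_zero] at hk
  set e := p.coeff m with he
  have hpc : p.coeff (m + 1) = c := by rw [hc, hm]
  rw [hpc] at hk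
  have hnm : (n : R) = (m : R) + 1 := by rw [hm]; push_cast; ring
  rw [hnm] at hk
  -- z = n c y + e
  have hz : ((m : R) + 1) * c * y + e = 0 := by
    refine hg c _ hc0 ?_
    have hd : d (((m : R) + 1) * c * y + e) = ((m : R) + 1) * (d c * y + c * (a * y + b)) + d e := by
      rw [map_add, mul_assoc, Derivation.leibniz, Derivation.leibniz, hy]
      have : d ((m : R) + 1) = 0 := by
        have : ((m : R) + 1) = ((m + 1 : ℕ) : R) := by push_cast; ring
        rw [this]; exact Derivation.map_natCast d _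
      rw [this]
      simp only [smul_eq_mul]
      ring
    rw [hd]
    linear_combination (-1 : R) * hk
  refine ⟨((m : R) + 1) * c, S.mul_mem (S.add_mem (hnatS m) S.one_mem) hcS, -e,
    S.neg_mem (hpS m), ?_, ?_⟩
  · refine mul_ne_zero ?_ hc0
    exact_mod_cast Nat.succ_ne_zero m
  · linear_combination hz

/-- the subring of polynomial values at `t` -/
def adj (S : Subring R) (t : R) : Subring R where
  carrier := {x | ∃ q : R[X], CoefIn S q ∧ q.eval t = x}
  mul_mem' := by
    rintro _ _ ⟨p, hp, rfl⟩ ⟨q, hq, rfl⟩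
    refine ⟨p * q, fun i => ?_, by simp⟩
    rw [coeff_mul]
    exact S.sum_mem fun x _ => S.mul_mem (hp _) (hq _)
  one_mem' := ⟨1, fun i => by
    rw [coeff_one]; split_ifs
    · exact S.one_mem
    · exact S.zero_mem, by simp⟩
  add_mem' := by
    rintro _ _ ⟨p, hp, rfl⟩ ⟨q, hq, rfl⟩
    exact ⟨p + q, fun i => by rw [coeff_add]; exact S.add_mem (hp i) (hq i), by simp⟩
  zero_mem' := ⟨0, fun i => by rw [coeff_zero]; exact S.zero_mem, by simp⟩
  neg_mem' := by
    rintro _ ⟨p, hp, rfl⟩
    exact ⟨-p, fun i => by rw [coeff_neg]; exact S.neg_mem (hp i), by simp⟩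

theorem mem_adj (S : Subring R) (t x : R) :
    x ∈ adj S t ↔ ∃ q : R[X], CoefIn S q ∧ q.eval t = x := Iff.rfl

theorem le_adj (S : Subring R) (t : R) {x : R} (hx : x ∈ S) : x ∈ adj S t :=
  ⟨C x, fun i => by
    rw [coeff_C]; split_ifs
    · exact hx
    · exact S.zero_mem, by simp⟩

theorem self_mem_adj (S : Subring R) (t : R) : t ∈ adj S t :=
  ⟨X, fun i => by
    rw [coeff_X]; split_ifs
    · exact S.one_mem
    · exact S.zero_mem, by simp⟩

theorem CoefIn_DD (d : Derivation k₀ R R) (S : Subring R) (hS : ∀ x ∈ S, d x ∈ S)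
    (a b : R) (ha : a ∈ S) (hb : b ∈ S) (p : R[X]) (hp : CoefIn S p) :
    CoefIn S (DD d a b p) := by
  intro i
  rw [coeff_DD]
  exact S.add_mem (S.add_mem (hS _ (hp i))
      (S.mul_mem (S.mul_mem (natCast_mem S i) ha) (hp i))) (S.mul_mem (S.mul_mem
      (S.add_mem (natCast_mem S i) S.one_mem) hb) (hp (i + 1)))

theorem adj_stable (d : Derivation k₀ R R) (S : Subring R) (hS : ∀ x ∈ S, d x ∈ S)
    (a b t : R) (ha : a ∈ S) (hb : b ∈ S) (ht : d t = a * t + b) :
    ∀ x ∈ adj S t, d x ∈ adj S t := by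
  rintro _ ⟨p, hp, rfl⟩
  exact ⟨DD d a b p, CoefIn_DD d S hS a b ha hb p hp, eval_DD d a b t ht p⟩

/-- If `y` is a fraction of polynomial values at the transcendental `t`, it is a fraction. -/
theorem frac_of_adj (d : Derivation k₀ R R) (S : Subring R) (hS : ∀ x ∈ S, d x ∈ S)
    (a b y : R) (ha : a ∈ S) (hb : b ∈ S) (hy : d y = a * y + b)
    (a' b' t : R) (ha' : a' ∈ S) (hb' : b' ∈ S) (ht : d t = a' * t + b') (htr : Tr S t)
    (hg1 : ∀ n : ℕ, n ≠ 0 → Good d ((n : R) * a'))
    (hg2 : ∀ n : ℕ, n ≠ 0 → Good d (a - (n : R) * a'))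
    (hf : ∃ c ∈ adj S t, ∃ e ∈ adj S t, c ≠ 0 ∧ c * y = e) :
    ∃ c ∈ S, ∃ e ∈ S, c ≠ 0 ∧ c * y = e := by
  classical
  have hex : ∃ n, ∃ D N : R[X], CoefIn S D ∧ CoefIn S N ∧ D ≠ 0 ∧ D.eval t * y = N.eval t
      ∧ D.natDegree = n := by
    obtain ⟨c, ⟨D, hD, rfl⟩, e, ⟨N, hN, rfl⟩, h1, h2⟩ := hf
    refine ⟨_, D, N, hD, hN, ?_, h2, rfl⟩
    rintro rfl
    simp at h1
  obtain ⟨D, N, hDS, hNS, hD0, hDN, hDd⟩ := Nat.find_spec hex
  have hmin : ∀ D1 N1 : R[X], CoefIn S D1 → CoefIn S N1 → D1.eval t * y = N1.eval t →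
      D1.natDegree < D.natDegree → D1 = 0 := by
    intro D1 N1 h1 h1' h2 h3
    by_contra h4
    rw [hDd] at h3
    exact Nat.find_min hex h3 ⟨D1, N1, h1, h1', h4, h2, rfl⟩
  set n := D.natDegree with hn'
  set c := D.coeff n with hc
  have hc0 : c ≠ 0 := by
    rw [hc, hn']; exact leadingCoeff_ne_zero.mpr hD0
  have hcS : c ∈ S := hDS n
  have hnatS : ∀ k : ℕ, (k : R) ∈ S := fun k => natCast_mem S k
  have hDt : D.eval t ≠ 0 := fun h => hD0 (htr D hDS h)
  set l := a * c + d c + (n : R) * a' * c with hl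
  have hlS : l ∈ S := S.add_mem (S.add_mem (S.mul_mem ha hcS) (hS _ hcS))
    (S.mul_mem (S.mul_mem (hnatS n) ha') hcS)
  set D1 : R[X] := C c * (C a * D + DD d a' b' D) - C l * D with hD1
  set N1 : R[X] := C c * (DD d a' b' N - C b * D) - C l * N with hN1
  have hCD := CoefIn_DD d S hS a' b' ha' hb' D hDS
  have hCN := CoefIn_DD d S hS a' b' ha' hb' N hNS
  have hD1S : CoefIn S D1 := by
    intro i
    rw [hD1, coeff_sub, coeff_C_mul, coeff_C_mul, coeff_add, coeff_C_mul]
    exact S.sub_mem (S.mul_mem hcS (S.add_mem (S.mul_mem ha (hDS i)) (hCD i)))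
      (S.mul_mem hlS (hDS i))
  have hN1S : CoefIn S N1 := by
    intro i
    rw [hN1, coeff_sub, coeff_C_mul, coeff_C_mul, coeff_sub, coeff_C_mul]
    exact S.sub_mem (S.mul_mem hcS (S.sub_mem (hCN i) (S.mul_mem hb (hDS i))))
      (S.mul_mem hlS (hNS i))
  have hder : d (D.eval t) * y + D.eval t * (a * y + b) = d (N.eval t) := by
    rw [← hDN, Derivation.leibniz, hy]
    simp only [smul_eq_mul]
    ring
  have hrel : D1.eval t * y = N1.eval t := by
    rw [hD1, hN1]
    simp only [eval_sub, eval_mul, eval_add, eval_C, eval_DD d a' b' t ht]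
    linear_combination c * hder - l * hDN
  have hD1n : D1 = 0 := by
    by_cases hn0 : n = 0
    · -- D constant
      have hDC : D = C c := by
        rw [hc, hn0]; exact eq_C_of_natDegree_eq_zero (by omega)
      ext i
      rw [hD1, coeff_sub, coeff_C_mul, coeff_C_mul, coeff_add, coeff_C_mul, coeff_DD, hDC]
      rw [hl, hn0]
      cases i with
      | zero => simp; ring
      | succ k => simp
    · refine hmin D1 N1 hD1S hN1S hrel ?_
      have hco : ∀ i, D1.coeff i = c * (a * D.coeff i + (d (D.coeff i) + (i : R) * a' * D.coeff i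
          + ((i : R) + 1) * b' * D.coeff (i + 1))) - l * D.coeff i := by
        intro i
        rw [hD1, coeff_sub, coeff_C_mul, coeff_C_mul, coeff_add, coeff_C_mul, coeff_DD]
      have hle : D1.natDegree ≤ n := by
        rw [natDegree_le_iff_coeff_eq_zero]
        intro M hM
        rw [hco, coeff_eq_zero_of_natDegree_lt hM,
          coeff_eq_zero_of_natDegree_lt (lt_trans hM (Nat.lt_succ_self M))]
        simp
      have hne : D1.coeff n = 0 := by
        rw [hco, coeff_eq_zero_of_natDegree_lt (Nat.lt_succ_self n), ← hc, hl]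
        ring
      rcases lt_or_eq_of_le hle with h | h
      · exact h
      · exfalso
        have : D1.leadingCoeff = 0 := by
          unfold leadingCoeff; rw [h]; exact hne
        rw [leadingCoeff_eq_zero] at this
        rw [this] at h
        simp at h
        omega
  have hN1n : N1 = 0 := by
    refine htr N1 hN1S ?_
    rw [← hrel, hD1n]; simp
  -- degree of D is zero
  have hn0 : n = 0 := by
    by_contra hn0
    refine hDt (hg1 n hn0 c _ hc0 ?_)
    have := congrArg (eval t) hD1n
    rw [hD1] at this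
    simp only [eval_sub, eval_mul, eval_add, eval_C, eval_DD d a' b' t ht, eval_zero] at this
    rw [hl] at this
    linear_combination this
  have hDC : D = C c := by
    rw [hc, hn0]; exact eq_C_of_natDegree_eq_zero (by omega)
  -- degree of N is zero
  set m := N.natDegree with hm'
  have hm0 : m = 0 := by
    by_contra hm0
    set e := N.coeff m with he
    have he0 : e ≠ 0 := by
      rw [he, hm']
      refine leadingCoeff_ne_zero.mpr ?_
      rintro h
      rw [h] at hm'
      simp at hm'
      exact hm0 hm'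
    refine he0 (hg2 m hm0 c e hc0 ?_)
    have : N1.coeff m = (0 : R[X]).coeff m := by rw [hN1n]
    rw [hN1, coeff_sub, coeff_C_mul, coeff_C_mul, coeff_sub, coeff_C_mul, coeff_DD, hDC,
      coeff_C_ne_zero hm0, coeff_eq_zero_of_natDegree_lt (Nat.lt_succ_self m), ← he, hl, hn0,
      coeff_zero] at this
    push_cast at this
    linear_combination this
  have hNC : N = C (N.coeff 0) := eq_C_of_natDegree_eq_zero (by omega)
  refine ⟨c, hcS, N.coeff 0, hNS 0, hc0, ?_⟩
  have := hDN
  rw [hDC, hNC, eval_C, eval_C] at this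
  exact this

/-- **Two solutions are independent**: `y` is transcendental over `S[t]`. -/
theorem tr_adj (d : Derivation k₀ R R) (S : Subring R) (hS : ∀ x ∈ S, d x ∈ S)
    (a b y : R) (ha : a ∈ S) (hb : b ∈ S) (hy : d y = a * y + b)
    (a' b' t : R) (ha' : a' ∈ S) (hb' : b' ∈ S) (ht : d t = a' * t + b')
    (hga : Good d a)
    (hg1 : ∀ n : ℕ, n ≠ 0 → Good d ((n : R) * a'))
    (hg2 : ∀ n : ℕ, n ≠ 0 → Good d (a - (n : R) * a'))
    (hyS : ∀ c ∈ S, ∀ e ∈ S, c ≠ 0 → c * y ≠ e) (htS : ∀ c ∈ S, ∀ e ∈ S, c ≠ 0 → c * t ≠ e) :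
    Tr (adj S t) y := by
  have hga' : Good d a' := by
    have := hg1 1 one_ne_zero
    simpa using this
  have htr : Tr S t := by
    by_contra h
    obtain ⟨c, hc, e, he, h1, h2⟩ := frac_of_alg d S hS a' b' t ha' hb' ht hga' h
    exact htS c hc e he h1 h2
  by_contra h
  have h1 := frac_of_alg d (adj S t) (adj_stable d S hS a' b' t ha' hb' ht) a b y
    (le_adj S t ha) (le_adj S t hb) hy hga h
  obtain ⟨c, hc, e, he, h1, h2⟩ := frac_of_adj d S hS a b y ha hb hy a' b' t ha' hb' ht htr
    hg1 hg2 h1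
  exact hyS c hc e he h1 h2

end Q57.LM
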