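import Mathlib
import Pool.Agent.Q57.LM.Alg

/-! The ring of power series whose coefficients grow more slowly than `A ^ k * k!`. -/

open PowerSeries

set_option linter.unusedSectionVars false

namespace Q57.LM

open scoped Nat

/-- abbreviation for the ring of formal power series -/
abbrev PS := PowerSeries ℂ

/-- coefficients are `O(B ^ k k!)` for some `B < A` -/
def Small (A : ℝ) (f : PS) : Prop :=
  ∃ B C : ℝ, 0 < B ∧ B < A ∧ 0 ≤ C ∧ ∀ k : ℕ, ‖coeff k f‖ ≤ C * B ^ k * (k ! : ℝ)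

theorem slack (M M' : ℝ) (h0 : 0 < M) (h : M < M') :
    ∃ C : ℝ, 0 ≤ C ∧ ∀ k : ℕ, ((k : ℝ) + 1) * M ^ k ≤ C * M' ^ k := by
  set δ := M' / M - 1 with hδ
  have hδ0 : 0 < δ := by
    rw [hδ, sub_pos, one_lt_div h0]; exact h
  refine ⟨1 + 1 / δ, by positivity, fun k => ?_⟩
  have h1 : M' = M * (1 + δ) := by rw [hδ]; field_simp; ring
  have h2 : 1 + (k : ℝ) * δ ≤ (1 + δ) ^ k := one_add_mul_le_pow (by linarith) k
  have h3 : ((k : ℝ) + 1) ≤ (1 + 1 / δ) * (1 + (k : ℝ) * δ) := by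
    have : (1 + 1 / δ) * (1 + (k : ℝ) * δ) = 1 + k * δ + 1 / δ + k := by
      field_simp
      ring
    rw [this]
    have : 0 ≤ (k : ℝ) * δ := by positivity
    have : 0 ≤ 1 / δ := by positivity
    linarith
  rw [h1, mul_pow]
  calc ((k : ℝ) + 1) * M ^ k ≤ ((1 + 1 / δ) * (1 + (k : ℝ) * δ)) * M ^ k := by gcongr
    _ ≤ ((1 + 1 / δ) * (1 + δ) ^ k) * M ^ k := by gcongr
    _ = (1 + 1 / δ) * (M ^ k * (1 + δ) ^ k) := by ring

theorem Small.mono_common {A : ℝ} {f g : PS} (hf : Small A f) (hg : Small A g) :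
    ∃ B C : ℝ, 0 < B ∧ B < A ∧ 0 ≤ C ∧ (∀ k : ℕ, ‖coeff k f‖ ≤ C * B ^ k * (k ! : ℝ)) ∧
      ∀ k : ℕ, ‖coeff k g‖ ≤ C * B ^ k * (k ! : ℝ) := by
  obtain ⟨B1, C1, h1, h2, h3, h4⟩ := hf
  obtain ⟨B2, C2, g1, g2, g3, g4⟩ := hg
  refine ⟨max B1 B2, max C1 C2, lt_max_of_lt_left h1, max_lt h2 g2, le_max_of_le_left h3, ?_, ?_⟩
  · intro k
    refine (h4 k).trans ?_
    gcongr
    · exact le_max_left _ _
    · exact le_max_left _ _
  · intro k
    refine (g4 k).trans ?_
    gcongr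
    · exact le_max_right _ _
    · exact le_max_right _ _

theorem Small.add {A : ℝ} {f g : PS} (hf : Small A f) (hg : Small A g) : Small A (f + g) := by
  obtain ⟨B, C, h1, h2, h3, h4, h5⟩ := hf.mono_common hg
  refine ⟨B, 2 * C, h1, h2, by linarith, fun k => ?_⟩
  rw [map_add]
  calc ‖coeff k f + coeff k g‖ ≤ ‖coeff k f‖ + ‖coeff k g‖ := norm_add_le _ _
    _ ≤ C * B ^ k * (k ! : ℝ) + C * B ^ k * (k ! : ℝ) := add_le_add (h4 k) (h5 k)
    _ = _ := by ring

theorem Small.neg {A : ℝ} {f : PS} (hf : Small A f) : Small A (-f) := by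
  obtain ⟨B, C, h1, h2, h3, h4⟩ := hf
  exact ⟨B, C, h1, h2, h3, fun k => by rw [map_neg, norm_neg]; exact h4 k⟩

theorem Small.mul {A : ℝ} {f g : PS} (hf : Small A f) (hg : Small A g) : Small A (f * g) := by
  obtain ⟨B, C, h1, h2, h3, h4, h5⟩ := hf.mono_common hg
  obtain ⟨K, hK0, hK⟩ := slack B ((B + A) / 2) h1 (by linarith)
  refine ⟨(B + A) / 2, C * C * K, by linarith, by linarith, by positivity, fun k => ?_⟩
  rw [coeff_mul]
  calc ‖∑ x ∈ Finset.HasAntidiagonal.antidiagonal k, coeff x.1 f * coeff x.2 g‖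
      ≤ ∑ x ∈ Finset.HasAntidiagonal.antidiagonal k, C * C * B ^ k * (k ! : ℝ) := by
        refine norm_sum_le_of_le _ fun x hx => ?_
        rw [Finset.HasAntidiagonal.mem_antidiagonal] at hx
        rw [norm_mul]
        calc ‖coeff x.1 f‖ * ‖coeff x.2 g‖
            ≤ (C * B ^ x.1 * (x.1 ! : ℝ)) * (C * B ^ x.2 * (x.2 ! : ℝ)) :=
              mul_le_mul (h4 _) (h5 _) (norm_nonneg _) (by positivity)
          _ = C * C * B ^ k * ((x.1 ! : ℝ) * (x.2 ! : ℝ)) := by rw [← hx, pow_add]; ring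
          _ ≤ C * C * B ^ k * (k ! : ℝ) := by
              gcongr
              have := Nat.factorial_mul_factorial_dvd_factorial_add x.1 x.2
              rw [hx] at this
              exact_mod_cast Nat.le_of_dvd (Nat.factorial_pos k) this
    _ = C * C * (((k : ℝ) + 1) * B ^ k) * (k ! : ℝ) := by
        rw [Finset.sum_const, Finset.Nat.card_antidiagonal, nsmul_eq_mul]
        push_cast
        ring
    _ ≤ C * C * (K * ((B + A) / 2) ^ k) * (k ! : ℝ) :=
        mul_le_mul_of_nonneg_right (mul_le_mul_of_nonneg_left (hK k) (by positivity))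
          (by positivity)
    _ = C * C * K * ((B + A) / 2) ^ k * (k ! : ℝ) := by ring

theorem Small.of_finite {A : ℝ} (hA : 0 < A) (f : PS) (n : ℕ)
    (h : ∀ k, n ≤ k → coeff k f = 0) : Small A f := by
  have hB : 0 < A / 2 := by linarith
  refine ⟨A / 2, ∑ i ∈ Finset.range n, ‖coeff i f‖ / ((A / 2) ^ i), hB, by linarith,
    Finset.sum_nonneg fun i _ => by positivity, fun k => ?_⟩
  by_cases hk : n ≤ k
  · rw [h k hk, norm_zero]
    refine mul_nonneg (mul_nonneg (Finset.sum_nonneg fun i _ => by positivity) (by positivity))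
      (by positivity)
  · have hk' : k ∈ Finset.range n := by simpa using hk
    have h1 : ‖coeff k f‖ / ((A / 2) ^ k) ≤ ∑ i ∈ Finset.range n, ‖coeff i f‖ / ((A / 2) ^ i) :=
      Finset.single_le_sum (f := fun i => ‖coeff i f‖ / ((A / 2) ^ i))
        (fun i _ => by positivity) hk'
    have h2 : ‖coeff k f‖ ≤ (∑ i ∈ Finset.range n, ‖coeff i f‖ / ((A / 2) ^ i)) * (A / 2) ^ k := by
      rwa [div_le_iff₀ (by positivity)] at h1
    have h3 : (1 : ℝ) ≤ (k ! : ℝ) := by exact_mod_cast Nat.factorial_pos k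
    calc ‖coeff k f‖ ≤ (∑ i ∈ Finset.range n, ‖coeff i f‖ / ((A / 2) ^ i)) * (A / 2) ^ k * 1 := by
          rw [mul_one]; exact h2
      _ ≤ _ := by
          refine mul_le_mul_of_nonneg_left h3 ?_
          exact mul_nonneg (Finset.sum_nonneg fun i _ => by positivity) (by positivity)

/-- the subring of series of small growth -/
def Sm (A : ℝ) (hA : 0 < A) : Subring PS where
  carrier := {f | Small A f}
  mul_mem' := fun hf hg => Small.mul hf hg
  one_mem' := Small.of_finite hA 1 1 fun k hk => by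
    rw [coeff_one, if_neg (by omega)]
  add_mem' := fun hf hg => Small.add hf hg
  zero_mem' := Small.of_finite hA 0 0 fun k _ => by simp
  neg_mem' := fun hf => Small.neg hf

theorem mem_Sm (A : ℝ) (hA : 0 < A) (f : PS) : f ∈ Sm A hA ↔ Small A f := Iff.rfl

theorem C_mem_Sm (A : ℝ) (hA : 0 < A) (c : ℂ) : (C c : PS) ∈ Sm A hA :=
  Small.of_finite hA _ 1 fun k hk => by rw [coeff_C, if_neg (by omega)]

theorem X_mem_Sm (A : ℝ) (hA : 0 < A) : (X : PS) ∈ Sm A hA :=
  Small.of_finite hA _ 2 fun k hk => by rw [coeff_X, if_neg (by omega)]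

/-- the derivation `X² d/dX` -/
noncomputable def th : Derivation ℂ PS PS :=
  (X ^ 2 : PS) • (PowerSeries.derivative ℂ)

instance : CharZero PS :=
  charZero_of_injective_algebraMap (R := ℂ) (fun a b h => by
    have := congrArg (constantCoeff (R := ℂ)) h
    simpa [PowerSeries.algebraMap_apply] using this)

theorem th_apply (f : PS) : th f = X ^ 2 * PowerSeries.derivative ℂ f := rfl

theorem coeff_th_zero (f : PS) : coeff 0 (th f) = 0 := by
  rw [th_apply, coeff_zero_eq_constantCoeff, map_mul, map_pow, constantCoeff_X]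
  simp

theorem coeff_th_succ (f : PS) (k : ℕ) : coeff (k + 1) (th f) = (k : ℂ) * coeff k f := by
  rw [th_apply, pow_two, mul_assoc, coeff_succ_X_mul]
  cases k with
  | zero => simp
  | succ m =>
    rw [coeff_succ_X_mul, PowerSeries.coeff_derivative]
    push_cast
    ring

theorem th_mem (A : ℝ) (hA : 0 < A) (f : PS) (hf : f ∈ Sm A hA) : th f ∈ Sm A hA := by
  obtain ⟨B, C, h1, h2, h3, h4⟩ := hf
  refine ⟨B, C / B, h1, h2, by positivity, fun k => ?_⟩
  cases k with
  | zero => rw [coeff_th_zero]; simp; positivity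
  | succ k =>
    rw [coeff_th_succ, norm_mul, Complex.norm_natCast]
    calc (k : ℝ) * ‖coeff k f‖ ≤ (k : ℝ) * (C * B ^ k * (k ! : ℝ)) := by gcongr; exact h4 k
      _ = C * B ^ k * ((k : ℝ) * (k ! : ℝ)) := by ring
      _ ≤ C * B ^ k * (((k : ℝ) + 1) * (k ! : ℝ)) := by gcongr; linarith
      _ = C / B * B ^ (k + 1) * ((k + 1)! : ℝ) := by
        rw [Nat.factorial_succ, pow_succ]; push_cast; field_simp

theorem X_mul_mem (A : ℝ) (hA : 0 < A) (f : PS) (hf : X * f ∈ Sm A hA) : f ∈ Sm A hA := by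
  obtain ⟨B, C, h1, h2, h3, h4⟩ := hf
  obtain ⟨K, hK0, hK⟩ := slack B ((B + A) / 2) h1 (by linarith)
  refine ⟨(B + A) / 2, C * B * K, by linarith, by linarith, by positivity, fun k => ?_⟩
  have := h4 (k + 1)
  rw [coeff_succ_X_mul, Nat.factorial_succ] at this
  push_cast at this
  calc ‖coeff k f‖ ≤ C * B ^ (k + 1) * (((k : ℝ) + 1) * (k ! : ℝ)) := this
    _ = C * B * (((k : ℝ) + 1) * B ^ k) * (k ! : ℝ) := by ring
    _ ≤ C * B * (K * ((B + A) / 2) ^ k) * (k ! : ℝ) :=
        mul_le_mul_of_nonneg_right (mul_le_mul_of_nonneg_left (hK k) (by positivity))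
          (by positivity)
    _ = C * B * K * ((B + A) / 2) ^ k * (k ! : ℝ) := by ring

theorem X_pow_mul_mem (A : ℝ) (hA : 0 < A) (n : ℕ) (f : PS) (hf : X ^ n * f ∈ Sm A hA) :
    f ∈ Sm A hA := by
  induction n with
  | zero => simpa using hf
  | succ n ih =>
    refine ih (X_mul_mem A hA _ ?_)
    rw [← mul_assoc, ← pow_succ']
    exact hf

theorem fact_mul_le (a b : ℕ) : (a + 1)! * (b + 1)! ≤ (a + b + 1)! := by
  induction a with
  | zero => simp
  | succ a ih =>
    have e1 : (a + 1 + 1)! = (a + 2) * (a + 1)! := by rw [Nat.factorial_succ]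
    have e2 : (a + 1 + b + 1)! = (a + b + 2) * (a + b + 1)! := by
      rw [show a + 1 + b + 1 = (a + b + 1) + 1 by ring, Nat.factorial_succ]
    rw [e1, e2]
    calc (a + 2) * (a + 1)! * (b + 1)! = (a + 2) * ((a + 1)! * (b + 1)!) := by ring
      _ ≤ (a + 2) * (a + b + 1)! := Nat.mul_le_mul_left _ ih
      _ ≤ (a + b + 2) * (a + b + 1)! := Nat.mul_le_mul_right _ (by omega)


end Q57.LM
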