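import Mathlib
import Pool.Agent.Q57.LM.Growth

/-! Division in the ring of series of small growth; the factorial series `psi a`. -/

open PowerSeries

set_option linter.unusedSectionVars false

namespace Q57.LM

open scoped Nat

theorem div_mem_unit (A : ℝ) (hA : 0 < A) (c e f : PS) (hc : c ∈ Sm A hA) (he : e ∈ Sm A hA)
    (hc0 : coeff 0 c ≠ 0) (h : c * f = e) : f ∈ Sm A hA := by
  obtain ⟨B, C, h1, h2, h3, h4, h5⟩ := Small.mono_common hc he
  set B' := (B + A) / 2 with hB'
  have hB'0 : 0 < B' := by rw [hB']; linarith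
  have hBB' : B < B' := by rw [hB']; linarith
  set r := B / B' with hr
  have hr0 : 0 < r := div_pos h1 hB'0
  have hr1 : r < 1 := (div_lt_one hB'0).mpr hBB'
  have hBr : B = r * B' := by rw [hr]; field_simp
  set δ := ‖coeff 0 c‖ with hδ
  have hδ0 : 0 < δ := norm_pos_iff.mpr hc0
  have hlim : Filter.Tendsto (fun k : ℕ => C * (1 / (1 - r) * (1 / (k : ℝ)) + r ^ k))
      Filter.atTop (nhds (C * (1 / (1 - r) * 0 + 0))) := by
    refine Filter.Tendsto.const_mul _ (Filter.Tendsto.add (Filter.Tendsto.const_mul _ ?_) ?_)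
    · exact tendsto_one_div_atTop_nhds_zero_nat
    · exact tendsto_pow_atTop_nhds_zero_of_lt_one hr0.le hr1
  have hev : ∀ᶠ k : ℕ in Filter.atTop,
      C * (1 / (1 - r) * (1 / (k : ℝ)) + r ^ k) < δ / 2 := by
    refine (Filter.Tendsto.eventually_lt_const ?_ hlim)
    simpa using half_pos hδ0
  obtain ⟨k0, hk0⟩ := Filter.eventually_atTop.mp hev
  set K := k0 + 1 with hK
  set M := (∑ i ∈ Finset.range K, ‖coeff i f‖ / (B' ^ i * (i ! : ℝ))) + 2 * C / δ with hM
  have hM0 : 0 ≤ M := by
    rw [hM]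
    exact add_nonneg (Finset.sum_nonneg fun i _ => by positivity) (by positivity)
  have hMC : C ≤ δ * M / 2 := by
    have : 2 * C / δ ≤ M := by
      rw [hM]
      have : 0 ≤ ∑ i ∈ Finset.range K, ‖coeff i f‖ / (B' ^ i * (i ! : ℝ)) :=
        Finset.sum_nonneg fun i _ => by positivity
      linarith
    rw [div_le_iff₀ hδ0] at this
    linarith
  have key : ∀ k : ℕ, ‖coeff k f‖ ≤ M * (B' ^ k * (k ! : ℝ)) := by
    intro k
    induction k using Nat.strong_induction_on with
    | _ k ih =>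
      by_cases hk : k < K
      · have h6 : ‖coeff k f‖ / (B' ^ k * (k ! : ℝ))
            ≤ ∑ i ∈ Finset.range K, ‖coeff i f‖ / (B' ^ i * (i ! : ℝ)) :=
          Finset.single_le_sum (f := fun i => ‖coeff i f‖ / (B' ^ i * (i ! : ℝ)))
            (fun i _ => by positivity) (by simpa using hk)
        have h7 : ‖coeff k f‖ / (B' ^ k * (k ! : ℝ)) ≤ M := by
          rw [hM]
          have : 0 ≤ 2 * C / δ := by positivity
          linarith
        rwa [div_le_iff₀ (by positivity)] at h7
      · obtain ⟨m, rfl⟩ : ∃ m, k = m + 1 := ⟨k - 1, by omega⟩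
        have hk0' := hk0 (m + 1) (by omega)
        have hco : coeff (m + 1) e = (∑ i ∈ Finset.range m, coeff (i + 1) c * coeff (m - i) f)
            + coeff (m + 1) c * coeff 0 f + coeff 0 c * coeff (m + 1) f := by
          rw [← h, coeff_mul, Finset.Nat.sum_antidiagonal_eq_sum_range_succ
            (fun i j => coeff i c * coeff j f), Finset.sum_range_succ', Finset.sum_range_succ]
          have h8 : ∀ i, m + 1 - (i + 1) = m - i := fun i => by omega
          simp only [h8, Nat.sub_self, Nat.sub_zero]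
        have h9 : coeff 0 c * coeff (m + 1) f = coeff (m + 1) e
            - (∑ i ∈ Finset.range m, coeff (i + 1) c * coeff (m - i) f)
            - coeff (m + 1) c * coeff 0 f := by
          rw [hco]; ring
        have hW : (0 : ℝ) < B' ^ (m + 1) := by positivity
        have hm1 : (0 : ℝ) < (m : ℝ) + 1 := by positivity
        have b1 : ‖coeff (m + 1) e‖ ≤ C * (B' ^ (m + 1) * ((m + 1)! : ℝ)) := by
          refine (h5 (m + 1)).trans ?_
          have : B ^ (m + 1) ≤ B' ^ (m + 1) := pow_le_pow_left₀ h1.le hBB'.le _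
          calc C * B ^ (m + 1) * ((m + 1)! : ℝ) ≤ C * B' ^ (m + 1) * ((m + 1)! : ℝ) := by gcongr
            _ = _ := by ring
        have b2 : ‖coeff (m + 1) c * coeff 0 f‖
            ≤ C * M * (B' ^ (m + 1) * ((m + 1)! : ℝ)) * r ^ (m + 1) := by
          rw [norm_mul]
          have hf0 := ih 0 (by omega)
          simp only [pow_zero, Nat.factorial_zero, Nat.cast_one, mul_one] at hf0
          calc ‖coeff (m + 1) c‖ * ‖coeff 0 f‖ ≤ (C * B ^ (m + 1) * ((m + 1)! : ℝ)) * M :=
                mul_le_mul (h4 _) hf0 (norm_nonneg _) (by positivity)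
            _ = _ := by rw [hBr, mul_pow]; ring
        have b3 : ‖∑ i ∈ Finset.range m, coeff (i + 1) c * coeff (m - i) f‖
            ≤ C * M * (B' ^ (m + 1) * (m ! : ℝ)) * (1 / (1 - r)) := by
          calc ‖∑ i ∈ Finset.range m, coeff (i + 1) c * coeff (m - i) f‖
              ≤ ∑ i ∈ Finset.range m, C * M * (B' ^ (m + 1) * (m ! : ℝ)) * r ^ i := by
                refine norm_sum_le_of_le _ fun i hi => ?_
                have hi' : i < m := Finset.mem_range.mp hi
                obtain ⟨j, hj⟩ : ∃ j, m = i + j + 1 := ⟨m - i - 1, by omega⟩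
                have e1 : m - i = j + 1 := by omega
                rw [norm_mul, e1]
                have hjf := ih (j + 1) (by omega)
                calc ‖coeff (i + 1) c‖ * ‖coeff (j + 1) f‖
                    ≤ (C * B ^ (i + 1) * ((i + 1)! : ℝ)) * (M * (B' ^ (j + 1) * ((j + 1)! : ℝ))) :=
                      mul_le_mul (h4 _) hjf (norm_nonneg _) (by positivity)
                  _ = C * M * B' ^ (m + 1) * r ^ (i + 1) * (((i + 1)! : ℝ) * ((j + 1)! : ℝ)) := by
                      rw [hBr, hj]; ring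
                  _ ≤ C * M * B' ^ (m + 1) * r ^ (i + 1) * (m ! : ℝ) := by
                      gcongr
                      have := fact_mul_le i j
                      rw [hj]
                      exact_mod_cast this
                  _ ≤ C * M * B' ^ (m + 1) * r ^ i * (m ! : ℝ) := by
                      have : r ^ (i + 1) ≤ r ^ i := pow_le_pow_of_le_one hr0.le hr1.le (by omega)
                      gcongr
                  _ = _ := by ring
            _ = C * M * (B' ^ (m + 1) * (m ! : ℝ)) * ∑ i ∈ Finset.range m, r ^ i := by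
                rw [Finset.mul_sum]
            _ ≤ _ := by
                refine mul_le_mul_of_nonneg_left ?_ (by positivity)
                have hg : (∑ i ∈ Finset.range m, r ^ i) * (1 - r) = 1 - r ^ m := by
                  have := geom_sum_mul r m
                  linarith
                rw [le_div_iff₀ (by linarith), hg]
                have : 0 ≤ r ^ m := by positivity
                linarith
        have hfac : ((m + 1)! : ℝ) = ((m : ℝ) + 1) * (m ! : ℝ) := by
          rw [Nat.factorial_succ]; push_cast; ring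
        have b4 : δ * ‖coeff (m + 1) f‖ ≤ δ * (M * (B' ^ (m + 1) * ((m + 1)! : ℝ))) := by
          calc δ * ‖coeff (m + 1) f‖ = ‖coeff 0 c * coeff (m + 1) f‖ := by rw [norm_mul]
            _ ≤ ‖coeff (m + 1) e‖ + ‖∑ i ∈ Finset.range m, coeff (i + 1) c * coeff (m - i) f‖
                + ‖coeff (m + 1) c * coeff 0 f‖ := by
                rw [h9]
                refine (norm_sub_le _ _).trans ?_
                have := norm_sub_le (coeff (m + 1) e)
                  (∑ i ∈ Finset.range m, coeff (i + 1) c * coeff (m - i) f)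
                linarith
            _ ≤ C * (B' ^ (m + 1) * ((m + 1)! : ℝ))
                + C * M * (B' ^ (m + 1) * (m ! : ℝ)) * (1 / (1 - r))
                + C * M * (B' ^ (m + 1) * ((m + 1)! : ℝ)) * r ^ (m + 1) :=
                add_le_add (add_le_add b1 b3) b2
            _ = (C + M * (C * (1 / (1 - r) * (1 / ((m + 1 : ℕ) : ℝ)) + r ^ (m + 1))))
                * (B' ^ (m + 1) * ((m + 1)! : ℝ)) := by
                have hr2 : 1 - r ≠ 0 := by linarith
                rw [hfac]; push_cast; field_simp; ring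
            _ ≤ (δ * M / 2 + M * (δ / 2)) * (B' ^ (m + 1) * ((m + 1)! : ℝ)) := by
                refine mul_le_mul_of_nonneg_right ?_ (by positivity)
                exact add_le_add hMC (mul_le_mul_of_nonneg_left hk0'.le hM0)
            _ = _ := by ring
        exact le_of_mul_le_mul_left b4 hδ0
  refine ⟨B', M, hB'0, by rw [hB']; linarith, hM0, fun k => ?_⟩
  rw [mul_assoc]
  exact key k

theorem div_mem (A : ℝ) (hA : 0 < A) (c e f : PS) (hc : c ∈ Sm A hA) (he : e ∈ Sm A hA)
    (hc0 : c ≠ 0) (h : c * f = e) : f ∈ Sm A hA := by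
  have h1 := X_pow_order_mul_divXPowOrder (f := c)
  set n := c.order.toNat with hn
  have h2 : divXPowOrder c ∈ Sm A hA := by
    refine X_pow_mul_mem A hA n _ ?_
    rw [h1]; exact hc
  refine div_mem_unit A hA (divXPowOrder c) (divXPowOrder c * f) f h2 ?_ ?_ rfl
  · refine X_pow_mul_mem A hA n _ ?_
    rw [← mul_assoc, h1, h]; exact he
  · rw [coeff_zero_eq_constantCoeff]
    exact fun h3 => hc0 (constantCoeff_divXPowOrder_eq_zero_iff.mp h3)

/-- the Gaussian moments `(2k)! / (2 ^ k k!) = (2k - 1)!!` -/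
noncomputable def mu (k : ℕ) : ℝ := ((2 * k)! : ℝ) / (2 ^ k * (k ! : ℝ))

theorem mu_pos (k : ℕ) : 0 < mu k := by unfold mu; positivity

theorem mu_zero : mu 0 = 1 := by simp [mu]

theorem mu_succ (k : ℕ) : mu (k + 1) = (2 * (k : ℝ) + 1) * mu k := by
  unfold mu
  have e : 2 * (k + 1) = 2 * k + 1 + 1 := by ring
  rw [e, Nat.factorial_succ, Nat.factorial_succ, Nat.factorial_succ]
  push_cast
  have h1 : (k ! : ℝ) ≠ 0 := by exact_mod_cast Nat.factorial_ne_zero k
  field_simp
  ring

theorem mu_le (k : ℕ) : mu k ≤ 2 ^ k * (k ! : ℝ) := by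
  induction k with
  | zero => simp [mu]
  | succ k ih =>
    rw [mu_succ, Nat.factorial_succ]
    push_cast
    have h0 := (mu_pos k).le
    calc (2 * (k : ℝ) + 1) * mu k ≤ (2 * (k : ℝ) + 2) * (2 ^ k * (k ! : ℝ)) := by
          refine mul_le_mul (by linarith) ih h0 (by positivity)
      _ = _ := by ring

theorem mu_ge (k : ℕ) : 2 ^ k * (k ! : ℝ) ≤ (2 * (k : ℝ) + 1) * mu k := by
  induction k with
  | zero => simp [mu]
  | succ k ih =>
    rw [mu_succ, Nat.factorial_succ]
    push_cast
    have h0 := mu_pos k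
    calc 2 ^ (k + 1) * (((k : ℝ) + 1) * (k ! : ℝ)) = 2 * ((k : ℝ) + 1) * (2 ^ k * (k ! : ℝ)) := by
          ring
      _ ≤ 2 * ((k : ℝ) + 1) * ((2 * (k : ℝ) + 1) * mu k) := by gcongr
      _ ≤ (2 * ((k : ℝ) + 1) + 1) * ((2 * (k : ℝ) + 1) * mu k) := by
          gcongr
          linarith
      _ = _ := by ring

/-- the series `∑ (2k-1)!! a ^ k X ^ k` -/
noncomputable def psi (a : ℂ) : PS := PowerSeries.mk fun k => (mu k : ℂ) * a ^ k

theorem psi_not_mem (a : ℂ) (ha : a ≠ 0) (hA : 0 < 2 * ‖a‖) : psi a ∉ Sm (2 * ‖a‖) hA := by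
  rintro ⟨B, C, h1, h2, h3, h4⟩
  set r := B / (2 * ‖a‖) with hr
  have hr0 : 0 ≤ r := by positivity
  have hr1 : r < 1 := (div_lt_one hA).mpr h2
  have hB : B = r * (2 * ‖a‖) := by rw [hr]; field_simp
  have hlim : Filter.Tendsto (fun k : ℕ => (k : ℝ) * r ^ k) Filter.atTop (nhds 0) :=
    tendsto_self_mul_const_pow_of_lt_one hr0 hr1
  have hlim2 : Filter.Tendsto (fun k : ℕ => r ^ k) Filter.atTop (nhds 0) :=
    tendsto_pow_atTop_nhds_zero_of_lt_one hr0 hr1
  have hlim3 : Filter.Tendsto (fun k : ℕ => C * (2 * ((k : ℝ) * r ^ k) + r ^ k)) Filter.atTop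
      (nhds (C * (2 * 0 + 0))) :=
    ((hlim.const_mul 2).add hlim2).const_mul C
  have hev : ∀ᶠ k : ℕ in Filter.atTop, C * (2 * ((k : ℝ) * r ^ k) + r ^ k) < 1 := by
    refine Filter.Tendsto.eventually_lt_const ?_ hlim3
    norm_num
  obtain ⟨k, hk⟩ := hev.exists
  have h5 := h4 k
  have h6 : ‖coeff k (psi a)‖ = mu k * ‖a‖ ^ k := by
    rw [psi, coeff_mk, norm_mul, norm_pow, Complex.norm_real, Real.norm_of_nonneg (mu_pos k).le]
  rw [h6] at h5
  have h7 := mu_ge k
  have hp : 0 < ‖a‖ ^ k := by positivity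
  have hf : (0 : ℝ) < (k ! : ℝ) := by exact_mod_cast Nat.factorial_pos k
  have h8 : 2 ^ k * (k ! : ℝ) * ‖a‖ ^ k ≤ (2 * (k : ℝ) + 1) * (C * B ^ k * (k ! : ℝ)) := by
    calc 2 ^ k * (k ! : ℝ) * ‖a‖ ^ k ≤ ((2 * (k : ℝ) + 1) * mu k) * ‖a‖ ^ k := by gcongr
      _ = (2 * (k : ℝ) + 1) * (mu k * ‖a‖ ^ k) := by ring
      _ ≤ _ := by gcongr
  have h9 : (2 * (k : ℝ) + 1) * (C * B ^ k * (k ! : ℝ))
      = (C * (2 * ((k : ℝ) * r ^ k) + r ^ k)) * (2 ^ k * (k ! : ℝ) * ‖a‖ ^ k) := by
    rw [hB, mul_pow, mul_pow]; ring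
  rw [h9] at h8
  have h10 : 0 < 2 ^ k * (k ! : ℝ) * ‖a‖ ^ k := by positivity
  have h11 : (C * (2 * ((k : ℝ) * r ^ k) + r ^ k)) * (2 ^ k * (k ! : ℝ) * ‖a‖ ^ k)
      < 1 * (2 ^ k * (k ! : ℝ) * ‖a‖ ^ k) := by gcongr
  linarith

/-- the differential equation of `psi` -/
theorem th_psi (a : ℂ) (ha : a ≠ 0) :
    th (psi a) = (C (1 / (2 * a)) * (1 - C a * X)) * psi a + (-C (1 / (2 * a))) := by
  ext k
  cases k with
  | zero =>
    rw [coeff_th_zero]
    simp [psi, mu_zero]
  | succ k =>
    have e : (C (1 / (2 * a)) * (1 - C a * X)) * psi a + (-C (1 / (2 * a)))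
        = C (1 / (2 * a)) * (psi a - C a * (X * psi a)) + (-C (1 / (2 * a))) := by ring
    rw [e, coeff_th_succ, map_add, coeff_C_mul, map_sub, coeff_C_mul, coeff_succ_X_mul, map_neg,
      coeff_C, if_neg (by omega)]
    unfold psi
    rw [coeff_mk, coeff_mk, mu_succ]
    push_cast
    field_simp
    ring

theorem good_of_const (l : PS) (hl : coeff 0 l ≠ 0) : Good th l := by
  intro c z hc h
  by_contra hz
  have hc1 := X_pow_order_mul_divXPowOrder (f := c)
  have hz1 := X_pow_order_mul_divXPowOrder (f := z)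
  set n := c.order.toNat
  set m := z.order.toNat
  set c' := divXPowOrder c
  set z' := divXPowOrder z
  have hc' : constantCoeff c' ≠ 0 := fun h3 => hc (constantCoeff_divXPowOrder_eq_zero_iff.mp h3)
  have hz' : constantCoeff z' ≠ 0 := fun h3 => hz (constantCoeff_divXPowOrder_eq_zero_iff.mp h3)
  have hX : ∀ (k : ℕ) (g : PS), ∃ g', th (X ^ k * g) = X ^ (k + 1) * g' := by
    intro k g
    refine ⟨(k : PS) * g + X * PowerSeries.derivative ℂ g, ?_⟩
    rw [th_apply, Derivation.leibniz, Derivation.leibniz_pow, PowerSeries.derivative_X]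
    simp only [smul_eq_mul, nsmul_eq_mul, mul_one]
    cases k with
    | zero => simp; ring
    | succ k =>
      rw [Nat.add_sub_cancel]
      ring
  obtain ⟨u, hu⟩ := hX n c'
  obtain ⟨v, hv⟩ := hX m z'
  rw [hc1] at hu
  rw [hz1] at hv
  have h1 : X ^ (n + m) * (l * c' * z') = X ^ (n + m) * (X * (c' * v - u * z')) := by
    have h2 : l * c * z = c * th z - th c * z := by rw [h]; ring
    rw [hu, hv] at h2
    calc X ^ (n + m) * (l * c' * z') = l * (X ^ n * c') * (X ^ m * z') := by ring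
      _ = l * c * z := by rw [hc1, hz1]
      _ = c * (X ^ (m + 1) * v) - X ^ (n + 1) * u * z := h2
      _ = (X ^ n * c') * (X ^ (m + 1) * v) - X ^ (n + 1) * u * (X ^ m * z') := by rw [hc1, hz1]
      _ = _ := by ring
  have h3 : l * c' * z' = X * (c' * v - u * z') :=
    mul_left_cancel₀ (pow_ne_zero _ X_ne_zero) h1
  have h4 := congrArg (constantCoeff (R := ℂ)) h3
  rw [map_mul, map_mul, map_mul, constantCoeff_X, zero_mul] at h4
  rw [coeff_zero_eq_constantCoeff] at hl
  exact mul_ne_zero (mul_ne_zero hl hc') hz' h4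

/-- **Independence of `psi a` and `psi (-a)`** over series of smaller growth. -/
theorem tr_psi (a : ℂ) (ha : a ≠ 0) (hA : 0 < 2 * ‖a‖) :
    Tr (adj (Sm (2 * ‖a‖) hA) (psi (-a))) (psi a) := by
  have hna : -a ≠ 0 := neg_ne_zero.mpr ha
  have hm : ∀ b : ℂ, (C (1 / (2 * b)) * (1 - C b * X) : PS) ∈ Sm (2 * ‖a‖) hA := fun b =>
    Subring.mul_mem _ (C_mem_Sm _ _ _) (Subring.sub_mem _ (Subring.one_mem _)
      (Subring.mul_mem _ (C_mem_Sm _ _ _) (X_mem_Sm _ _)))
  have hc0 : ∀ b : ℂ, coeff 0 (C (1 / (2 * b)) * (1 - C b * X) : PS) = 1 / (2 * b) := by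
    intro b
    rw [coeff_zero_eq_constantCoeff]
    simp
  have hnat : ∀ n : ℕ, coeff 0 ((n : PS)) = (n : ℂ) := by
    intro n
    rw [coeff_zero_eq_constantCoeff, map_natCast]
  refine tr_adj th (Sm (2 * ‖a‖) hA) (th_mem _ hA) (C (1 / (2 * a)) * (1 - C a * X))
    (-C (1 / (2 * a))) (psi a) (hm a) (Subring.neg_mem _ (C_mem_Sm _ _ _)) (th_psi a ha)
    (C (1 / (2 * -a)) * (1 - C (-a) * X)) (-C (1 / (2 * -a))) (psi (-a)) (hm (-a))
    (Subring.neg_mem _ (C_mem_Sm _ _ _)) (th_psi (-a) hna) ?_ ?_ ?_ ?_ ?_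
  · refine good_of_const _ ?_
    rw [hc0]
    exact one_div_ne_zero (mul_ne_zero two_ne_zero ha)
  · intro n hn
    refine good_of_const _ ?_
    rw [coeff_zero_eq_constantCoeff, map_mul, ← coeff_zero_eq_constantCoeff, hnat, hc0]
    exact mul_ne_zero (Nat.cast_ne_zero.mpr hn) (one_div_ne_zero (mul_ne_zero two_ne_zero hna))
  · intro n hn
    refine good_of_const _ ?_
    rw [map_sub, hc0, coeff_zero_eq_constantCoeff, map_mul, ← coeff_zero_eq_constantCoeff,
      hnat, hc0]
    have e : (1 / (2 * a) - (n : ℂ) * (1 / (2 * -a))) = ((n : ℂ) + 1) / (2 * a) := by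
      field_simp
      ring
    rw [e]
    refine div_ne_zero ?_ (mul_ne_zero two_ne_zero ha)
    exact_mod_cast Nat.succ_ne_zero n
  · intro c hc e he hc0' h
    exact psi_not_mem a ha hA (div_mem _ hA c e _ hc he hc0' h)
  · intro c hc e he hc0' h
    have h2 := div_mem _ hA c e _ hc he hc0' h
    have hA' : 0 < 2 * ‖-a‖ := by rw [norm_neg]; exact hA
    refine psi_not_mem (-a) hna hA' ?_
    rw [mem_Sm] at h2 ⊢
    rw [norm_neg]
    exact h2

end Q57.LM
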