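import Mathlib
import Pool.Agent.Q57.LM.Growth2

/-! The coefficients of `√z / sinh √z`. -/

open PowerSeries

set_option linter.unusedSectionVars false

namespace Q57.LM

open scoped Nat

/-- `s(z) = ∑ z ^ k / (2k+1)!`, so that `s(y²) = sinh y / y` -/
noncomputable def s : PS := PowerSeries.mk fun k => 1 / ((2 * k + 1)! : ℂ)

/-- `(2 - 4 ^ k) B_{2k} / (2k)!` -/
noncomputable def wc (k : ℕ) : ℝ := (2 - 4 ^ k) * ((bernoulli (2 * k) : ℚ) : ℝ) / ((2 * k)! : ℝ)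

theorem sum_pairs {M : Type*} [AddCommMonoid M] (g : ℕ → M) (m : ℕ) :
    ∑ i ∈ Finset.range (2 * m), g i = ∑ a ∈ Finset.range m, (g (2 * a) + g (2 * a + 1)) := by
  induction m with
  | zero => simp
  | succ m ih =>
    rw [show 2 * (m + 1) = 2 * m + 1 + 1 by ring, Finset.sum_range_succ, Finset.sum_range_succ, ih,
      Finset.sum_range_succ, add_assoc]

theorem y_identity :
    (exp ℂ - evalNegHom (exp ℂ)) * (2 * bernoulliPowerSeries ℂ
      - rescale (2 : ℂ) (bernoulliPowerSeries ℂ)) = 2 * X := by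
  set E := exp ℂ with hE
  set b := bernoulliPowerSeries ℂ with hb
  have h1 : b * (E - 1) = X := bernoulliPowerSeries_mul_exp_sub_one ℂ
  have h2 : rescale (2 : ℂ) b * (E ^ 2 - 1) = 2 * X := by
    have h3 := congrArg (rescale (2 : ℂ)) h1
    rw [map_mul, map_sub, map_one, rescale_X] at h3
    have h4 : E ^ 2 = rescale (2 : ℂ) E := by
      have := exp_pow_eq_rescale_exp (A := ℂ) 2
      simpa using this
    rw [h4, h3]
    rfl
  have h5 : E * evalNegHom E = 1 := exp_mul_exp_neg_eq_one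
  have hE0 : E ≠ 0 := by
    intro h
    rw [h, zero_mul] at h5
    exact zero_ne_one h5
  refine mul_left_cancel₀ hE0 ?_
  have h6 : E * ((E - evalNegHom E) * (2 * b - rescale (2 : ℂ) b))
      = (E ^ 2 - E * evalNegHom E) * (2 * b - rescale (2 : ℂ) b) := by ring
  rw [h6, h5]
  linear_combination (2 * (E + 1)) * h1 - h2

theorem s_mul_w : s * PowerSeries.mk (fun k => ((wc k : ℝ) : ℂ)) = 1 := by
  ext n
  have h := congrArg (coeff (2 * n + 1)) y_identity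
  rw [coeff_mul, Finset.Nat.sum_antidiagonal_eq_sum_range_succ
    (fun i j => coeff i (exp ℂ - evalNegHom (exp ℂ)) * coeff j (2 * bernoulliPowerSeries ℂ
      - rescale (2 : ℂ) (bernoulliPowerSeries ℂ)))] at h
  have e1 : (2 * n + 1).succ = 2 * (n + 1) := by omega
  rw [e1, sum_pairs] at h
  have c1 : ∀ i, coeff i (exp ℂ - evalNegHom (exp ℂ)) = (1 - (-1) ^ i) / (i ! : ℂ) := by
    intro i
    rw [map_sub, evalNegHom, coeff_rescale, coeff_exp]
    simp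
    ring
  have c2 : ∀ j, coeff j (2 * bernoulliPowerSeries ℂ - rescale (2 : ℂ) (bernoulliPowerSeries ℂ))
      = (2 - 2 ^ j) * ((bernoulli j : ℚ) : ℂ) / (j ! : ℂ) := by
    intro j
    have : (2 : PS) = C (2 : ℂ) := (map_ofNat (C : ℂ →+* PS) 2).symm
    rw [map_sub, this, coeff_C_mul, coeff_rescale, bernoulliPowerSeries, coeff_mk]
    simp
    ring
  have c3 : coeff (2 * n + 1) (2 * X : PS) = if n = 0 then 2 else 0 := by
    have : (2 : PS) = C (2 : ℂ) := (map_ofNat (C : ℂ →+* PS) 2).symm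
    rw [this, coeff_C_mul, coeff_X]
    by_cases hn : n = 0
    · simp [hn]
    · rw [if_neg (by omega), if_neg hn, mul_zero]
  rw [c3] at h
  have c4 : ∑ a ∈ Finset.range (n + 1),
      (coeff (2 * a) (exp ℂ - evalNegHom (exp ℂ)) * coeff (2 * n + 1 - 2 * a)
        (2 * bernoulliPowerSeries ℂ - rescale (2 : ℂ) (bernoulliPowerSeries ℂ))
      + coeff (2 * a + 1) (exp ℂ - evalNegHom (exp ℂ)) * coeff (2 * n + 1 - (2 * a + 1))
        (2 * bernoulliPowerSeries ℂ - rescale (2 : ℂ) (bernoulliPowerSeries ℂ)))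
      = 2 * ∑ a ∈ Finset.range (n + 1), coeff a s * ((wc (n - a) : ℝ) : ℂ) := by
    rw [Finset.mul_sum]
    refine Finset.sum_congr rfl fun a ha => ?_
    have ha' : a ≤ n := by
      have := Finset.mem_range.mp ha
      omega
    have e2 : 2 * n + 1 - (2 * a + 1) = 2 * (n - a) := by omega
    rw [c1, c1, e2, c2 (2 * (n - a))]
    have e3 : (-1 : ℂ) ^ (2 * a) = 1 := by rw [pow_mul]; norm_num
    have e4 : (-1 : ℂ) ^ (2 * a + 1) = -1 := by rw [pow_succ, e3]; norm_num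
    rw [e3, e4, s, coeff_mk, wc]
    push_cast
    have e5 : (2 : ℂ) ^ (2 * (n - a)) = 4 ^ (n - a) := by rw [pow_mul]; norm_num
    rw [e5]
    ring
  rw [c4] at h
  rw [coeff_mul, Finset.Nat.sum_antidiagonal_eq_sum_range_succ
    (fun i j => coeff i s * coeff j (PowerSeries.mk (fun k => ((wc k : ℝ) : ℂ)))), coeff_one]
  simp only [coeff_mk]
  by_cases hn : n = 0
  · rw [if_pos hn] at h
    rw [if_pos hn]
    have : (2 : ℂ) * (∑ a ∈ Finset.range (n + 1), coeff a s * ((wc (n - a) : ℝ) : ℂ)) = 2 * 1 := by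
      rw [h]; norm_num
    exact mul_left_cancel₀ two_ne_zero this
  · rw [if_neg hn] at h
    rw [if_neg hn]
    have : (2 : ℂ) * (∑ a ∈ Finset.range (n + 1), coeff a s * ((wc (n - a) : ℝ) : ℂ)) = 2 * 0 := by
      rw [h]; norm_num
    exact mul_left_cancel₀ two_ne_zero this

theorem constantCoeff_s : constantCoeff s ≠ 0 := by
  rw [← coeff_zero_eq_constantCoeff_apply, s, coeff_mk]
  simp

theorem s_ne_zero : s ≠ 0 := fun h => constantCoeff_s (by rw [h, map_zero])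

theorem coeff_s_inv (k : ℕ) : coeff k (s⁻¹) = ((wc k : ℝ) : ℂ) := by
  have h1 : s * s⁻¹ = 1 := PowerSeries.mul_inv_cancel _ constantCoeff_s
  have h2 : s⁻¹ = PowerSeries.mk (fun k => ((wc k : ℝ) : ℂ)) := by
    refine mul_left_cancel₀ s_ne_zero ?_
    rw [h1, s_mul_w]
  rw [h2, coeff_mk]

/-- the zeta values -/
theorem zeta_bound : ∃ Z1 : ℝ, 0 ≤ Z1 ∧ ∀ k : ℕ, k ≠ 0 → ∃ Z : ℝ, 1 ≤ Z ∧
    Z ≤ 1 + 4 * (1 / 4) ^ k * Z1 ∧ Z ≤ Z1 ∧
    ((bernoulli (2 * k) : ℚ) : ℝ) / ((2 * k)! : ℝ)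
      = (-1) ^ (k + 1) * 2 * Z / (4 ^ k * Real.pi ^ (2 * k)) := by
  have hs1 := hasSum_zeta_nat (k := 1) one_ne_zero
  set Z1 := (-1 : ℝ) ^ (1 + 1) * (2 : ℝ) ^ (2 * 1 - 1) * Real.pi ^ (2 * 1) *
        ((bernoulli (2 * 1) : ℚ) : ℝ) / ((2 * 1)! : ℝ) with hZ1
  have hZ1nn : 0 ≤ Z1 := hs1.nonneg fun n => by positivity
  refine ⟨Z1, hZ1nn, fun k hk => ?_⟩
  have hs := hasSum_zeta_nat (k := k) hk
  set Z := (-1 : ℝ) ^ (k + 1) * (2 : ℝ) ^ (2 * k - 1) * Real.pi ^ (2 * k) *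
        ((bernoulli (2 * k) : ℚ) : ℝ) / ((2 * k)! : ℝ) with hZ
  refine ⟨Z, ?_, ?_, ?_, ?_⟩
  · have := le_hasSum hs 1 (fun n _ => by positivity)
    simpa using this
  · have h1 : HasSum (fun n : ℕ => (if n = 1 then (1 : ℝ) else 0)
        + 4 * (1 / 4) ^ k * (1 / (n : ℝ) ^ (2 * 1))) (1 + 4 * (1 / 4) ^ k * Z1) :=
      (hasSum_ite_eq 1 (1 : ℝ)).add (hs1.mul_left _)
    refine hasSum_le (fun n => ?_) hs h1
    rcases Nat.lt_trichotomy n 1 with hn | hn | hn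
    · have : n = 0 := by omega
      subst this
      have : (0 : ℝ) ^ (2 * k) = 0 := zero_pow (by omega)
      simp [this]
    · subst hn
      simp
    · rw [if_neg (by omega), zero_add]
      obtain ⟨m, rfl⟩ : ∃ m, k = m + 1 := ⟨k - 1, by omega⟩
      have hn2 : (2 : ℝ) ≤ (n : ℝ) := by exact_mod_cast hn
      have h4 : (4 : ℝ) ^ m ≤ ((n : ℝ) ^ 2) ^ m := by
        refine pow_le_pow_left₀ (by norm_num) ?_ m
        nlinarith
      have e : (n : ℝ) ^ (2 * (m + 1)) = ((n : ℝ) ^ 2) ^ m * (n : ℝ) ^ 2 := by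
        rw [← pow_mul, ← pow_add]; ring_nf
      have e7 : (n : ℝ) ^ (2 * 1) = (n : ℝ) ^ 2 := by norm_num
      rw [e, e7, pow_succ (1 / 4 : ℝ) m]
      have h5 : (0 : ℝ) < (n : ℝ) ^ 2 := by positivity
      rw [one_div, mul_inv]
      have h6 : (((n : ℝ) ^ 2) ^ m)⁻¹ ≤ (1 / 4 : ℝ) ^ m := by
        rw [one_div, inv_pow]
        exact inv_anti₀ (by positivity) h4
      calc (((n : ℝ) ^ 2) ^ m)⁻¹ * ((n : ℝ) ^ 2)⁻¹ ≤ (1 / 4 : ℝ) ^ m * ((n : ℝ) ^ 2)⁻¹ := by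
            gcongr
        _ = _ := by ring
  · refine hasSum_le (fun n => ?_) hs hs1
    rcases Nat.eq_zero_or_pos n with hn | hn
    · subst hn
      have : (0 : ℝ) ^ (2 * k) = 0 := zero_pow (by omega)
      simp [this]
    · have hn1 : (1 : ℝ) ≤ (n : ℝ) := by exact_mod_cast hn
      have : (n : ℝ) ^ (2 * 1) ≤ (n : ℝ) ^ (2 * k) := pow_le_pow_right₀ hn1 (by omega)
      exact one_div_le_one_div_of_le (by positivity) this
  · obtain ⟨m, rfl⟩ : ∃ m, k = m + 1 := ⟨k - 1, by omega⟩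
    have hpi : Real.pi ^ (2 * (m + 1)) ≠ 0 := pow_ne_zero _ Real.pi_ne_zero
    have e1 : (-1 : ℝ) ^ (m + 1 + 1) * (-1) ^ (m + 1 + 1) = 1 := by
      rw [← mul_pow]; norm_num
    have e2 : (4 : ℝ) ^ (m + 1) = 2 * 2 ^ (2 * (m + 1) - 1) := by
      have : 2 * (m + 1) - 1 = 2 * m + 1 := by omega
      rw [this, pow_succ, pow_succ, pow_mul]; norm_num; ring
    rw [eq_div_iff (mul_ne_zero (by positivity) hpi), hZ, e2]
    have : (-1 : ℝ) ^ (m + 1 + 1) * 2 * ((-1 : ℝ) ^ (m + 1 + 1) * (2 : ℝ) ^ (2 * (m + 1) - 1)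
        * Real.pi ^ (2 * (m + 1)) * ((bernoulli (2 * (m + 1)) : ℚ) : ℝ) / ((2 * (m + 1))! : ℝ))
        = ((-1 : ℝ) ^ (m + 1 + 1) * (-1) ^ (m + 1 + 1)) * (2 * (2 : ℝ) ^ (2 * (m + 1) - 1)
        * Real.pi ^ (2 * (m + 1)) * ((bernoulli (2 * (m + 1)) : ℚ) : ℝ) / ((2 * (m + 1))! : ℝ)) := by
      ring
    rw [this, e1]
    ring

/-- the main term of the coefficients of `1 / s` -/
theorem wc_asymp : ∃ K : ℝ, 0 ≤ K ∧ ∀ k : ℕ,
    |wc k - 2 * (-(1 / Real.pi ^ 2)) ^ k| ≤ K * (1 / (4 * Real.pi ^ 2)) ^ k := by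
  obtain ⟨Z1, hZ1, hz⟩ := zeta_bound
  refine ⟨12 * Z1 + 1, by positivity, fun k => ?_⟩
  by_cases hk : k = 0
  · subst hk
    have : wc 0 = 1 := by
      unfold wc; norm_num
    rw [this]
    norm_num
    linarith
  · obtain ⟨Z, z1, z2, z3, z4⟩ := hz k hk
    have hpi : (0 : ℝ) < Real.pi ^ 2 := by positivity
    set q := (1 / Real.pi ^ 2) ^ k with hq
    have hq0 : 0 < q := by positivity
    have e0 : wc k = (2 - 4 ^ k) * (((bernoulli (2 * k) : ℚ) : ℝ) / ((2 * k)! : ℝ)) := by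
      unfold wc; ring
    have e1 : wc k = 2 * (-1) ^ k * q * ((1 - 2 * (1 / 4) ^ k) * Z) := by
      rw [e0, z4, hq, one_div_pow, one_div_pow, ← pow_mul, pow_succ]
      have h4 : (4 : ℝ) ^ k ≠ 0 := by positivity
      have hp : Real.pi ^ (2 * k) ≠ 0 := by positivity
      field_simp
      ring
    have e2 : 2 * (-(1 / Real.pi ^ 2)) ^ k = 2 * (-1) ^ k * q := by
      rw [hq, neg_pow]; ring
    have e3 : (1 / (4 * Real.pi ^ 2)) ^ k = (1 / 4) ^ k * q := by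
      rw [hq, ← mul_pow]
      congr 1
      field_simp
    rw [e1, e2, e3]
    have e4 : 2 * (-1) ^ k * q * ((1 - 2 * (1 / 4) ^ k) * Z) - 2 * (-1) ^ k * q
        = (-1) ^ k * (2 * q * ((Z - 1) - 2 * (1 / 4) ^ k * Z)) := by ring
    rw [e4, abs_mul, abs_pow, abs_neg, abs_one, one_pow, one_mul, abs_mul,
      abs_of_pos (by positivity : 0 < 2 * q)]
    have h4 : (0 : ℝ) < (1 / 4) ^ k := by positivity
    have hb : |(Z - 1) - 2 * (1 / 4) ^ k * Z| ≤ 6 * (1 / 4) ^ k * Z1 := by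
      rw [abs_le]
      constructor
      · have : 2 * (1 / 4) ^ k * Z ≤ 2 * (1 / 4) ^ k * Z1 := by gcongr
        nlinarith
      · have : 0 ≤ 2 * (1 / 4) ^ k * Z := by positivity
        nlinarith
    calc 2 * q * |(Z - 1) - 2 * (1 / 4) ^ k * Z| ≤ 2 * q * (6 * (1 / 4) ^ k * Z1) := by gcongr
      _ = 12 * Z1 * ((1 / 4) ^ k * q) := by ring
      _ ≤ (12 * Z1 + 1) * ((1 / 4) ^ k * q) := by gcongr; linarith

end Q57.LM
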