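import Mathlib
import Pool.Agent.Q57.LM.Bern

/-! The Gaussian transform of `sinh(y/p) sinh(y/q) sinh(y/r) / sinh y`. -/

open PowerSeries

set_option linter.unusedSectionVars false

namespace Q57.LM

open scoped Nat

/-- infinite radius of convergence -/
def Ent (f : PS) : Prop := ∀ ρ : ℝ, 0 ≤ ρ → Summable fun i => ‖coeff i f‖ * ρ ^ i

/-- the sum of the series at `z` -/
noncomputable def ev (z : ℂ) (f : PS) : ℂ := ∑' i, coeff i f * z ^ i

theorem Ent.summable {f : PS} (hf : Ent f) (z : ℂ) : Summable fun i => ‖coeff i f * z ^ i‖ := by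
  have := hf ‖z‖ (norm_nonneg z)
  simpa [norm_mul, norm_pow] using this

theorem coeff_mul_pow (f g : PS) (z : ℂ) (n : ℕ) :
    coeff n (f * g) * z ^ n = ∑ x ∈ Finset.HasAntidiagonal.antidiagonal n,
      (coeff x.1 f * z ^ x.1) * (coeff x.2 g * z ^ x.2) := by
  rw [coeff_mul, Finset.sum_mul]
  refine Finset.sum_congr rfl fun x hx => ?_
  rw [Finset.HasAntidiagonal.mem_antidiagonal] at hx
  rw [← hx, pow_add]
  ring

theorem Ent.mul {f g : PS} (hf : Ent f) (hg : Ent g) : Ent (f * g) := by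
  intro ρ hρ
  have h1 := hf.summable (ρ : ℂ)
  have h2 := hg.summable (ρ : ℂ)
  have h3 := summable_norm_sum_mul_antidiagonal_of_summable_norm h1 h2
  refine h3.congr fun n => ?_
  rw [← coeff_mul_pow, norm_mul, norm_pow, Complex.norm_real, Real.norm_of_nonneg hρ]

theorem ev_mul {f g : PS} (hf : Ent f) (hg : Ent g) (z : ℂ) :
    ev z (f * g) = ev z f * ev z g := by
  unfold ev
  rw [tsum_mul_tsum_eq_tsum_sum_antidiagonal_of_summable_norm (hf.summable z) (hg.summable z)]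
  exact tsum_congr fun n => coeff_mul_pow f g z n

theorem ent_of_finite (f : PS) (n : ℕ) (h : ∀ k, n ≤ k → coeff k f = 0) : Ent f := by
  intro ρ _
  refine summable_of_ne_finset_zero (s := Finset.range n) fun k hk => ?_
  rw [h k (by simpa using hk), norm_zero, zero_mul]

theorem ent_C (c : ℂ) : Ent (C c) := ent_of_finite _ 1 fun k hk => by
  rw [coeff_C, if_neg (by omega)]

theorem ent_X : Ent X := ent_of_finite _ 2 fun k hk => by
  rw [coeff_X, if_neg (by omega)]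

theorem ev_C (z c : ℂ) : ev z (C c) = c := by
  unfold ev
  rw [tsum_eq_single 0 (fun k hk => by rw [coeff_C, if_neg hk, zero_mul])]
  simp

theorem ev_X (z : ℂ) : ev z X = z := by
  unfold ev
  rw [tsum_eq_single 1 (fun k hk => by rw [coeff_X, if_neg hk, zero_mul])]
  simp

theorem ent_s : Ent s := by
  intro ρ hρ
  refine Summable.of_nonneg_of_le (fun i => by positivity) (fun i => ?_)
    (Real.summable_pow_div_factorial ρ)
  rw [s, coeff_mk, norm_div, norm_one, Complex.norm_natCast]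
  have h1 : (i ! : ℝ) ≤ ((2 * i + 1)! : ℝ) := by
    exact_mod_cast Nat.factorial_le (by omega)
  have h2 : (0 : ℝ) < (i ! : ℝ) := by exact_mod_cast Nat.factorial_pos i
  have h3 : 1 / ((2 * i + 1)! : ℝ) ≤ 1 / (i ! : ℝ) := one_div_le_one_div_of_le h2 h1
  calc 1 / ((2 * i + 1)! : ℝ) * ρ ^ i ≤ 1 / (i ! : ℝ) * ρ ^ i := by gcongr
    _ = _ := by ring

theorem ent_rescale (a : ℂ) {f : PS} (hf : Ent f) : Ent (rescale a f) := by
  intro ρ hρ
  refine (hf (‖a‖ * ρ) (by positivity)).congr fun i => ?_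
  rw [coeff_rescale, norm_mul, norm_pow]
  ring

theorem ev_rescale (a z : ℂ) (f : PS) : ev z (rescale a f) = ev (a * z) f := by
  unfold ev
  refine tsum_congr fun i => ?_
  rw [coeff_rescale, mul_pow]
  ring

theorem ev_s (x : ℝ) (hx : x ≠ 0) : ev (((-(x ^ 2) : ℝ)) : ℂ) s = ((Real.sin x / x : ℝ) : ℂ) := by
  have h1 := (Real.hasSum_sin x).div_const x
  have h2 : HasSum (fun n : ℕ => (((-1) ^ n * x ^ (2 * n + 1) / ((2 * n + 1)! : ℝ) / x : ℝ) : ℂ))
      ((Real.sin x / x : ℝ) : ℂ) := Complex.hasSum_ofReal.mpr h1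
  unfold ev
  rw [← h2.tsum_eq]
  refine tsum_congr fun n => ?_
  rw [s, coeff_mk]
  have hx' : (x : ℂ) ≠ 0 := by exact_mod_cast hx
  have hf : ((2 * n + 1)! : ℂ) ≠ 0 := by exact_mod_cast Nat.factorial_ne_zero _
  push_cast
  rw [neg_pow, ← pow_mul, pow_succ]
  field_simp

/-- `s(z/p²)`, that is `sinh(y/p)/(y/p)` for `z = y²` -/
noncomputable def sc (p : ℕ) : PS := rescale (1 / (p : ℂ) ^ 2) s

theorem ent_sc (p : ℕ) : Ent (sc p) := ent_rescale _ ent_s

theorem ev_sc (p : ℕ) (hp : p ≠ 0) (x : ℝ) (hx : x ≠ 0) :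
    ev (((-(x ^ 2) : ℝ)) : ℂ) (sc p) = ((Real.sin (x / p) / (x / p) : ℝ) : ℂ) := by
  unfold sc
  have hp' : (p : ℝ) ≠ 0 := Nat.cast_ne_zero.mpr hp
  rw [ev_rescale, ← ev_s (x / p) (div_ne_zero hx hp')]
  congr 1
  push_cast
  field_simp

theorem constantCoeff_sc (p : ℕ) : constantCoeff (sc p) = 1 := by
  rw [← coeff_zero_eq_constantCoeff_apply, sc, coeff_rescale, s, coeff_mk]
  simp

theorem sc_ne_zero (p : ℕ) : sc p ≠ 0 := fun h => by
  have := constantCoeff_sc p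
  rw [h, map_zero] at this
  exact zero_ne_one this

/-- a triple of multiplicities -/
structure Trip where
  p : ℕ
  q : ℕ
  r : ℕ
  hp : 2 ≤ p
  hpq : p < q
  hqr : q < r
  cpq : Nat.Coprime p q
  cpr : Nat.Coprime p r
  cqr : Nat.Coprime q r

@[ext] theorem Trip.ext' {t u : Trip} (h1 : t.p = u.p) (h2 : t.q = u.q) (h3 : t.r = u.r) :
    t = u := by
  cases t; cases u; simp_all

/-- the product of the multiplicities -/
def Trip.P (t : Trip) : ℕ := t.p * t.q * t.r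

theorem Trip.P_pos (t : Trip) : 0 < t.P := by
  have h1 := t.hp
  have h2 := t.hpq
  have h3 := t.hqr
  unfold Trip.P
  have : 0 < t.p := by omega
  have : 0 < t.q := by omega
  have : 0 < t.r := by omega
  positivity

/-- the numerator `z s(z/p²) s(z/q²) s(z/r²) / (pqr)` -/
noncomputable def Num (t : Trip) : PS :=
  C (1 / (t.P : ℂ)) * X * sc t.p * sc t.q * sc t.r

/-- `F(z)`, with `F(y²) = sinh(y/p) sinh(y/q) sinh(y/r) / sinh y` -/
noncomputable def F (t : Trip) : PS := Num t * s⁻¹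

/-- the Gaussian transform of `F`: `y ^ (2k)` goes to `(2k-1)!! (P X / 2) ^ k` -/
noncomputable def G (t : Trip) : PS :=
  PowerSeries.mk fun k => coeff k (F t) * ((mu k : ℝ) : ℂ) * ((t.P : ℂ) / 2) ^ k

theorem ent_Num (t : Trip) : Ent (Num t) :=
  ((((ent_C _).mul ent_X).mul (ent_sc _)).mul (ent_sc _)).mul (ent_sc _)

theorem ev_Num (t : Trip) (z : ℂ) : ev z (Num t)
    = (1 / (t.P : ℂ)) * z * ev z (sc t.p) * ev z (sc t.q) * ev z (sc t.r) := by
  unfold Num
  rw [ev_mul ((((ent_C _).mul ent_X).mul (ent_sc _)).mul (ent_sc _)) (ent_sc _),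
    ev_mul (((ent_C _).mul ent_X).mul (ent_sc _)) (ent_sc _),
    ev_mul ((ent_C _).mul ent_X) (ent_sc _), ev_mul (ent_C _) ent_X, ev_C, ev_X]

theorem sin_pi_div_ne (p : ℕ) (hp : 2 ≤ p) : Real.sin (Real.pi / p) ≠ 0 := by
  have h1 : (2 : ℝ) ≤ (p : ℝ) := by exact_mod_cast hp
  have h2 : 0 < Real.pi / p := by positivity
  have h3 : Real.pi / p < Real.pi := by
    rw [div_lt_iff₀ (by linarith)]
    nlinarith [Real.pi_pos]
  exact (Real.sin_pos_of_pos_of_lt_pi h2 h3).ne'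

/-- the leading amplitude -/
noncomputable def nu (t : Trip) : ℂ := ev (((-(Real.pi ^ 2) : ℝ)) : ℂ) (Num t)

theorem nu_ne_zero (t : Trip) : nu t ≠ 0 := by
  unfold nu
  have h1 := t.hp
  have h2 := t.hpq
  have h3 := t.hqr
  have hpi := Real.pi_ne_zero
  have key : ∀ p : ℕ, 2 ≤ p → ev (((-(Real.pi ^ 2) : ℝ)) : ℂ) (sc p) ≠ 0 := by
    intro p hp
    rw [ev_sc p (by omega) _ hpi]
    have : (p : ℝ) ≠ 0 := Nat.cast_ne_zero.mpr (by omega)
    exact_mod_cast div_ne_zero (sin_pi_div_ne p hp) (div_ne_zero hpi this)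
  rw [ev_Num]
  have hP : (t.P : ℂ) ≠ 0 := Nat.cast_ne_zero.mpr t.P_pos.ne'
  have hz : (((-(Real.pi ^ 2) : ℝ)) : ℂ) ≠ 0 := by
    exact_mod_cast neg_ne_zero.mpr (pow_ne_zero 2 hpi)
  exact mul_ne_zero (mul_ne_zero (mul_ne_zero (mul_ne_zero (one_div_ne_zero hP) hz)
    (key _ h1)) (key _ (by omega))) (key _ (by omega))

/-- the coefficients of `F` up to exponentially smaller terms -/
theorem F_asymp (t : Trip) : ∃ K : ℝ, 0 ≤ K ∧ ∀ n : ℕ,
    ‖coeff n (F t) - 2 * nu t * (((-(1 / Real.pi ^ 2) : ℝ)) : ℂ) ^ n‖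
      ≤ K * (1 / (4 * Real.pi ^ 2)) ^ n := by
  obtain ⟨K, hK0, hK⟩ := wc_asymp
  set β : ℝ := -(1 / Real.pi ^ 2) with hβ
  set ρ : ℝ := 4 * Real.pi ^ 2 with hρ
  have hρ0 : 0 < ρ := by positivity
  have hpi2 : (0 : ℝ) < Real.pi ^ 2 := by positivity
  have hsum := ent_Num t ρ hρ0.le
  set T := ∑' i, ‖coeff i (Num t)‖ * ρ ^ i with hT
  have hT0 : 0 ≤ T := tsum_nonneg fun i => by positivity
  have hβ0 : β ≠ 0 := by
    rw [hβ]; exact neg_ne_zero.mpr (by positivity)
  have hβinv : (((-(Real.pi ^ 2) : ℝ)) : ℂ) * (β : ℂ) = 1 := by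
    rw [← Complex.ofReal_mul, hβ]
    have : -(Real.pi ^ 2) * -(1 / Real.pi ^ 2) = 1 := by field_simp
    rw [this]; simp
  set z : ℂ := (((-(Real.pi ^ 2) : ℝ)) : ℂ) with hz
  have hβn : ‖(β : ℂ)‖ = 1 / Real.pi ^ 2 := by
    rw [Complex.norm_real, hβ, norm_neg, Real.norm_of_nonneg (by positivity)]
  have hzn : ‖z‖ = ρ * (1 / 4) := by
    rw [hz, Complex.norm_real, norm_neg, Real.norm_of_nonneg (by positivity), hρ]; ring
  refine ⟨2 * T + K * T, by positivity, fun n => ?_⟩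
  have hsz := (ent_Num t).summable z
  have hsz' : Summable fun i => coeff i (Num t) * z ^ i := hsz.of_norm
  -- splitting of nu
  have hsplit : nu t = (∑ i ∈ Finset.range (n + 1), coeff i (Num t) * z ^ i)
      + ∑' i, coeff (i + (n + 1)) (Num t) * z ^ (i + (n + 1)) := by
    unfold nu ev
    exact (hsz'.sum_add_tsum_nat_add (n + 1)).symm
  have hF : coeff n (F t) = ∑ i ∈ Finset.range (n + 1),
      coeff i (Num t) * ((wc (n - i) : ℝ) : ℂ) := by
    rw [F, coeff_mul, Finset.Nat.sum_antidiagonal_eq_sum_range_succ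
      (fun i j => coeff i (Num t) * coeff j (s⁻¹))]
    exact Finset.sum_congr rfl fun i _ => by rw [coeff_s_inv]
  have hmain : ∑ i ∈ Finset.range (n + 1), coeff i (Num t) * (2 * (β : ℂ) ^ (n - i))
      = 2 * (β : ℂ) ^ n * ∑ i ∈ Finset.range (n + 1), coeff i (Num t) * z ^ i := by
    rw [Finset.mul_sum]
    refine Finset.sum_congr rfl fun i hi => ?_
    have hi' : i ≤ n := by
      have := Finset.mem_range.mp hi
      omega
    have : (β : ℂ) ^ n = (β : ℂ) ^ (n - i) * (β : ℂ) ^ i := by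
      rw [← pow_add, Nat.sub_add_cancel hi']
    have h2 : z ^ i * (β : ℂ) ^ i = 1 := by rw [← mul_pow, hβinv, one_pow]
    rw [this]
    linear_combination (-(2 * coeff i (Num t) * (β : ℂ) ^ (n - i))) * h2
  have hdiff : coeff n (F t) - 2 * nu t * (β : ℂ) ^ n
      = (∑ i ∈ Finset.range (n + 1), coeff i (Num t)
          * (((wc (n - i) : ℝ) : ℂ) - 2 * (β : ℂ) ^ (n - i)))
        - 2 * (β : ℂ) ^ n * ∑' i, coeff (i + (n + 1)) (Num t) * z ^ (i + (n + 1)) := by
    have h3 : ∑ i ∈ Finset.range (n + 1), coeff i (Num t)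
          * (((wc (n - i) : ℝ) : ℂ) - 2 * (β : ℂ) ^ (n - i))
        = (∑ i ∈ Finset.range (n + 1), coeff i (Num t) * ((wc (n - i) : ℝ) : ℂ))
          - ∑ i ∈ Finset.range (n + 1), coeff i (Num t) * (2 * (β : ℂ) ^ (n - i)) := by
      rw [← Finset.sum_sub_distrib]
      exact Finset.sum_congr rfl fun i _ => by ring
    rw [h3, ← hF, hmain]
    nth_rewrite 1 [hsplit]
    ring
  rw [hdiff]
  have hρn : (1 / ρ) ^ n * ρ ^ n = 1 := by
    rw [← mul_pow]
    have : 1 / ρ * ρ = 1 := by field_simp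
    rw [this, one_pow]
  have b1 : ‖∑ i ∈ Finset.range (n + 1), coeff i (Num t)
          * (((wc (n - i) : ℝ) : ℂ) - 2 * (β : ℂ) ^ (n - i))‖ ≤ K * T * (1 / ρ) ^ n := by
    calc ‖∑ i ∈ Finset.range (n + 1), coeff i (Num t)
          * (((wc (n - i) : ℝ) : ℂ) - 2 * (β : ℂ) ^ (n - i))‖
        ≤ ∑ i ∈ Finset.range (n + 1), (K * (1 / ρ) ^ n) * (‖coeff i (Num t)‖ * ρ ^ i) := by
          refine norm_sum_le_of_le _ fun i hi => ?_
          have hi' : i ≤ n := by
            have := Finset.mem_range.mp hi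
            omega
          rw [norm_mul]
          have h4 : ‖((wc (n - i) : ℝ) : ℂ) - 2 * (β : ℂ) ^ (n - i)‖ ≤ K * (1 / ρ) ^ (n - i) := by
            have h5 := hK (n - i)
            have h6 : ((wc (n - i) : ℝ) : ℂ) - 2 * (β : ℂ) ^ (n - i)
                = ((wc (n - i) - 2 * β ^ (n - i) : ℝ) : ℂ) := by push_cast; ring
            rw [h6, Complex.norm_real, Real.norm_eq_abs]
            exact h5
          have h7 : (1 / ρ) ^ (n - i) = (1 / ρ) ^ n * ρ ^ i := by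
            have h8 : (1 / ρ) ^ n = (1 / ρ) ^ (n - i) * (1 / ρ) ^ i := by
              rw [← pow_add, Nat.sub_add_cancel hi']
            have h9 : (1 / ρ) ^ i * ρ ^ i = 1 := by
              rw [← mul_pow]
              have : 1 / ρ * ρ = 1 := by field_simp
              rw [this, one_pow]
            rw [h8, mul_assoc, h9, mul_one]
          calc ‖coeff i (Num t)‖ * ‖((wc (n - i) : ℝ) : ℂ) - 2 * (β : ℂ) ^ (n - i)‖
              ≤ ‖coeff i (Num t)‖ * (K * (1 / ρ) ^ (n - i)) := by gcongr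
            _ = _ := by rw [h7]; ring
      _ = (K * (1 / ρ) ^ n) * ∑ i ∈ Finset.range (n + 1), ‖coeff i (Num t)‖ * ρ ^ i := by
          rw [Finset.mul_sum]
      _ ≤ (K * (1 / ρ) ^ n) * T := by
          refine mul_le_mul_of_nonneg_left ?_ (by positivity)
          exact hsum.sum_le_tsum _ (fun i _ => by positivity)
      _ = _ := by ring
  have b2 : ‖∑' i, coeff (i + (n + 1)) (Num t) * z ^ (i + (n + 1))‖ ≤ (1 / 4) ^ n * T := by
    have hs2 : Summable fun i => ‖coeff (i + (n + 1)) (Num t) * z ^ (i + (n + 1))‖ :=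
      (summable_nat_add_iff (n + 1)).mpr hsz
    have hs3 : Summable fun i => ‖coeff (i + (n + 1)) (Num t)‖ * ρ ^ (i + (n + 1)) :=
      (summable_nat_add_iff (f := fun i => ‖coeff i (Num t)‖ * ρ ^ i) (n + 1)).mpr hsum
    calc ‖∑' i, coeff (i + (n + 1)) (Num t) * z ^ (i + (n + 1))‖
        ≤ ∑' i, ‖coeff (i + (n + 1)) (Num t) * z ^ (i + (n + 1))‖ := norm_tsum_le_tsum_norm hs2
      _ ≤ ∑' i, (1 / 4) ^ n * (‖coeff (i + (n + 1)) (Num t)‖ * ρ ^ (i + (n + 1))) := by
          refine hs2.tsum_le_tsum (fun i => ?_) (hs3.mul_left _)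
          rw [norm_mul, norm_pow, hzn, mul_pow]
          have h4 : (1 / 4 : ℝ) ^ (i + (n + 1)) ≤ (1 / 4) ^ n :=
            pow_le_pow_of_le_one (by norm_num) (by norm_num) (by omega)
          calc ‖coeff (i + (n + 1)) (Num t)‖ * (ρ ^ (i + (n + 1)) * (1 / 4) ^ (i + (n + 1)))
              ≤ ‖coeff (i + (n + 1)) (Num t)‖ * (ρ ^ (i + (n + 1)) * (1 / 4) ^ n) := by gcongr
            _ = _ := by ring
      _ = (1 / 4) ^ n * ∑' i, (‖coeff (i + (n + 1)) (Num t)‖ * ρ ^ (i + (n + 1))) := tsum_mul_left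
      _ ≤ (1 / 4) ^ n * T := by
          refine mul_le_mul_of_nonneg_left ?_ (by positivity)
          have h5 := hsum.sum_add_tsum_nat_add (n + 1)
          have h6 : 0 ≤ ∑ i ∈ Finset.range (n + 1), ‖coeff i (Num t)‖ * ρ ^ i :=
            Finset.sum_nonneg fun i _ => by positivity
          rw [hT, ← h5]
          linarith
  have h10 : (1 / Real.pi ^ 2) ^ n * (1 / 4) ^ n = (1 / ρ) ^ n := by
    rw [← mul_pow]
    congr 1
    rw [hρ]; field_simp
  calc _ ≤ ‖∑ i ∈ Finset.range (n + 1), coeff i (Num t)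
          * (((wc (n - i) : ℝ) : ℂ) - 2 * (β : ℂ) ^ (n - i))‖
        + ‖2 * (β : ℂ) ^ n * ∑' i, coeff (i + (n + 1)) (Num t) * z ^ (i + (n + 1))‖ :=
          norm_sub_le _ _
    _ ≤ K * T * (1 / ρ) ^ n + 2 * (1 / Real.pi ^ 2) ^ n * ((1 / 4) ^ n * T) := by
        refine add_le_add b1 ?_
        rw [norm_mul, norm_mul, norm_pow, hβn, Complex.norm_ofNat]
        gcongr
    _ = (2 * T + K * T) * (1 / ρ) ^ n := by rw [← h10]; ring

end Q57.LM
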