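import Mathlib
import Pool.Agent.Q57.LM.Asy

/-! Multiplicative independence of the series `G t (±X)`. -/

open PowerSeries

set_option linter.unusedSectionVars false

namespace Q57.LM

open scoped Nat

/-- the Borel parameter -/
noncomputable def aa (t : Trip) : ℂ := (((-((t.P : ℝ) / (2 * Real.pi ^ 2)) : ℝ)) : ℂ)

theorem aa_ne (t : Trip) : aa t ≠ 0 := by
  unfold aa
  have hP : (0 : ℝ) < (t.P : ℝ) := by exact_mod_cast t.P_pos
  have : -((t.P : ℝ) / (2 * Real.pi ^ 2)) ≠ 0 := neg_ne_zero.mpr (by positivity)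
  exact_mod_cast this

theorem norm_aa (t : Trip) : 2 * ‖aa t‖ = (t.P : ℝ) / Real.pi ^ 2 := by
  unfold aa
  rw [Complex.norm_real, norm_neg, Real.norm_of_nonneg (by positivity)]
  field_simp

theorem G_dec (t : Trip) : Small ((t.P : ℝ) / Real.pi ^ 2) (G t - C (2 * nu t) * psi (aa t)) := by
  obtain ⟨K, hK0, hK⟩ := F_asymp t
  have hP : (0 : ℝ) < (t.P : ℝ) := by exact_mod_cast t.P_pos
  refine ⟨(t.P : ℝ) / (4 * Real.pi ^ 2), K, by positivity, ?_, hK0, fun k => ?_⟩
  · refine div_lt_div_of_pos_left hP (by positivity) ?_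
    have : (0 : ℝ) < Real.pi ^ 2 := by positivity
    linarith
  · have hc : coeff k (G t - C (2 * nu t) * psi (aa t))
        = (coeff k (F t) - 2 * nu t * (((-(1 / Real.pi ^ 2) : ℝ)) : ℂ) ^ k)
          * (((mu k : ℝ) : ℂ) * ((t.P : ℂ) / 2) ^ k) := by
      rw [map_sub, coeff_C_mul, G, psi, coeff_mk, coeff_mk]
      have : aa t = (((-(1 / Real.pi ^ 2) : ℝ)) : ℂ) * ((t.P : ℂ) / 2) := by
        unfold aa
        push_cast
        field_simp
      rw [this, mul_pow]
      ring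
    rw [hc, norm_mul, norm_mul, norm_pow, Complex.norm_real, Real.norm_of_nonneg (mu_pos k).le,
      norm_div, Complex.norm_natCast, Complex.norm_ofNat]
    have hm := mu_le k
    have hm0 := (mu_pos k).le
    calc ‖coeff k (F t) - 2 * nu t * (((-(1 / Real.pi ^ 2) : ℝ)) : ℂ) ^ k‖
          * (mu k * ((t.P : ℝ) / 2) ^ k)
        ≤ (K * (1 / (4 * Real.pi ^ 2)) ^ k) * ((2 ^ k * (k ! : ℝ)) * ((t.P : ℝ) / 2) ^ k) := by
          refine mul_le_mul (hK k) ?_ (by positivity) (by positivity)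
          gcongr
      _ = K * ((1 / (4 * Real.pi ^ 2)) * 2 * ((t.P : ℝ) / 2)) ^ k * (k ! : ℝ) := by
          rw [mul_pow, mul_pow]; ring
      _ = _ := by
          congr 3
          field_simp

theorem G_small (t : Trip) (A : ℝ) (h : (t.P : ℝ) / Real.pi ^ 2 < A) : Small A (G t) := by
  obtain ⟨K, hK0, hK⟩ := F_asymp t
  have hP : (0 : ℝ) < (t.P : ℝ) := by exact_mod_cast t.P_pos
  refine ⟨(t.P : ℝ) / Real.pi ^ 2, K + 2 * ‖nu t‖, by positivity, h, by positivity, fun k => ?_⟩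
  have hF : ‖coeff k (F t)‖ ≤ (K + 2 * ‖nu t‖) * (1 / Real.pi ^ 2) ^ k := by
    have h1 : coeff k (F t) = (coeff k (F t) - 2 * nu t * (((-(1 / Real.pi ^ 2) : ℝ)) : ℂ) ^ k)
        + 2 * nu t * (((-(1 / Real.pi ^ 2) : ℝ)) : ℂ) ^ k := by ring
    rw [h1]
    refine (norm_add_le _ _).trans ?_
    have h2 : ‖2 * nu t * (((-(1 / Real.pi ^ 2) : ℝ)) : ℂ) ^ k‖
        = 2 * ‖nu t‖ * (1 / Real.pi ^ 2) ^ k := by
      rw [norm_mul, norm_mul, norm_pow, Complex.norm_real, norm_neg,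
        Real.norm_of_nonneg (by positivity), Complex.norm_ofNat]
    have h3 : (1 / (4 * Real.pi ^ 2)) ^ k ≤ (1 / Real.pi ^ 2) ^ k := by
      refine pow_le_pow_left₀ (by positivity) ?_ k
      refine one_div_le_one_div_of_le (by positivity) ?_
      have : (0 : ℝ) < Real.pi ^ 2 := by positivity
      linarith
    calc _ ≤ K * (1 / (4 * Real.pi ^ 2)) ^ k + 2 * ‖nu t‖ * (1 / Real.pi ^ 2) ^ k := by
          rw [h2]; exact add_le_add (hK k) le_rfl
      _ ≤ K * (1 / Real.pi ^ 2) ^ k + 2 * ‖nu t‖ * (1 / Real.pi ^ 2) ^ k := by gcongr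
      _ = _ := by ring
  rw [G, coeff_mk, norm_mul, norm_mul, norm_pow, Complex.norm_real,
    Real.norm_of_nonneg (mu_pos k).le, norm_div, Complex.norm_natCast, Complex.norm_ofNat]
  have hm := mu_le k
  have hm0 := (mu_pos k).le
  calc ‖coeff k (F t)‖ * mu k * ((t.P : ℝ) / 2) ^ k
      ≤ ((K + 2 * ‖nu t‖) * (1 / Real.pi ^ 2) ^ k) * (2 ^ k * (k ! : ℝ)) * ((t.P : ℝ) / 2) ^ k := by
        refine mul_le_mul_of_nonneg_right ?_ (by positivity)
        exact mul_le_mul hF hm hm0 (by positivity)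
    _ = (K + 2 * ‖nu t‖) * ((1 / Real.pi ^ 2) * 2 * ((t.P : ℝ) / 2)) ^ k * (k ! : ℝ) := by
        rw [mul_pow, mul_pow]; ring
    _ = _ := by
        congr 3
        field_simp

/-! ### distinct triples -/

/-- `m` is divisible by a member of the triple -/
def Dv (t : Trip) (m : ℕ) : Prop := t.p ∣ m ∨ t.q ∣ m ∨ t.r ∣ m

/-- membership in the triple -/
def Mem (t : Trip) (a : ℕ) : Prop := a = t.p ∨ a = t.q ∨ a = t.r

theorem coprime_absurd {a b : ℕ} (hb : 2 ≤ b) (h : Nat.Coprime a b) (hd : b ∣ a) : False := by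
  have : b ∣ Nat.gcd a b := Nat.dvd_gcd hd dvd_rfl
  rw [h] at this
  have := Nat.le_of_dvd one_pos this
  omega

theorem mem_min (t : Trip) (a b : ℕ) (ha : Mem t a) (hb : Mem t b) (h : b ∣ a) : b = a := by
  have h1 := t.hp
  have h2 := t.hpq
  have h3 := t.hqr
  rcases ha with rfl | rfl | rfl <;> rcases hb with rfl | rfl | rfl
  · rfl
  · exact (coprime_absurd (by omega) t.cpq h).elim
  · exact (coprime_absurd (by omega) t.cpr h).elim
  · exact (coprime_absurd (by omega) t.cpq.symm h).elim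
  · rfl
  · exact (coprime_absurd (by omega) t.cqr h).elim
  · exact (coprime_absurd (by omega) t.cpr.symm h).elim
  · exact (coprime_absurd (by omega) t.cqr.symm h).elim
  · rfl

theorem dv_iff (t : Trip) (m : ℕ) : Dv t m ↔ ∃ a, Mem t a ∧ a ∣ m := by
  constructor
  · rintro (h | h | h)
    · exact ⟨_, Or.inl rfl, h⟩
    · exact ⟨_, Or.inr (Or.inl rfl), h⟩
    · exact ⟨_, Or.inr (Or.inr rfl), h⟩
  · rintro ⟨a, rfl | rfl | rfl, h⟩
    · exact Or.inl h
    · exact Or.inr (Or.inl h)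
    · exact Or.inr (Or.inr h)

theorem mem_pos (t : Trip) (a : ℕ) (ha : Mem t a) : a ≠ 0 := by
  have h1 := t.hp
  have h2 := t.hpq
  have h3 := t.hqr
  rcases ha with rfl | rfl | rfl <;> omega

theorem mem_of_dv (t u : Trip) (h : ∀ m : ℕ, m ≠ 0 → (Dv t m ↔ Dv u m)) (a : ℕ)
    (ha : Mem t a) : Mem u a := by
  have h1 : Dv t a := (dv_iff t a).mpr ⟨a, ha, dvd_rfl⟩
  obtain ⟨x, hx, hxa⟩ := (dv_iff u a).mp ((h a (mem_pos t a ha)).mp h1)
  have h2 : Dv u x := (dv_iff u x).mpr ⟨x, hx, dvd_rfl⟩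
  obtain ⟨y, hy, hyx⟩ := (dv_iff t x).mp ((h x (mem_pos u x hx)).mpr h2)
  have h3 := mem_min t a y ha hy (hyx.trans hxa)
  have h4 : x = a := Nat.dvd_antisymm hxa (h3 ▸ hyx)
  exact h4 ▸ hx

theorem trip_eq (t u : Trip) (h : ∀ m : ℕ, m ≠ 0 → (Dv t m ↔ Dv u m)) : t = u := by
  have h1 := mem_of_dv t u h t.p (Or.inl rfl)
  have h2 := mem_of_dv t u h t.q (Or.inr (Or.inl rfl))
  have h3 := mem_of_dv t u h t.r (Or.inr (Or.inr rfl))
  have a1 := t.hpq
  have a2 := t.hqr
  have a3 := u.hpq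
  have a4 := u.hqr
  unfold Mem at h1 h2 h3
  apply Trip.ext' <;> omega

theorem sin_eq_zero_iff_dvd (p m : ℕ) (hp : p ≠ 0) (_hm : m ≠ 0) :
    Real.sin (Real.pi * m / p) = 0 ↔ p ∣ m := by
  have hp' : (p : ℝ) ≠ 0 := Nat.cast_ne_zero.mpr hp
  rw [Real.sin_eq_zero_iff]
  constructor
  · rintro ⟨n, hn⟩
    have h1 : (n : ℝ) * p = m := by
      have h2 : (n : ℝ) * Real.pi * p = Real.pi * m := by
        rw [hn]; field_simp
      have h3 : Real.pi * ((n : ℝ) * p) = Real.pi * m := by rw [← h2]; ring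
      exact mul_left_cancel₀ Real.pi_ne_zero h3
    have h2 : n * (p : ℤ) = (m : ℤ) := by exact_mod_cast h1
    have h3 : (p : ℤ) ∣ (m : ℤ) := ⟨n, by rw [← h2]; ring⟩
    exact Int.natCast_dvd_natCast.mp h3
  · rintro ⟨n, rfl⟩
    refine ⟨n, ?_⟩
    push_cast
    field_simp

theorem ev_Num_zero (t : Trip) (m : ℕ) (hm : m ≠ 0) :
    ev (((-((Real.pi * m) ^ 2) : ℝ)) : ℂ) (Num t) = 0 ↔ Dv t m := by
  have h1 := t.hp
  have h2 := t.hpq
  have h3 := t.hqr
  have hm' : (m : ℝ) ≠ 0 := Nat.cast_ne_zero.mpr hm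
  have hx : Real.pi * m ≠ 0 := mul_ne_zero Real.pi_ne_zero hm'
  have key : ∀ p : ℕ, 2 ≤ p → (ev (((-((Real.pi * m) ^ 2) : ℝ)) : ℂ) (sc p) = 0 ↔ p ∣ m) := by
    intro p hp
    rw [ev_sc p (by omega) _ hx, Complex.ofReal_eq_zero, div_eq_zero_iff,
      sin_eq_zero_iff_dvd p m (by omega) hm]
    have : Real.pi * m / p ≠ 0 := div_ne_zero hx (Nat.cast_ne_zero.mpr (by omega))
    constructor
    · rintro (h | h)
      · exact h
      · exact absurd h this
    · exact Or.inl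
  have hP : (1 / (t.P : ℂ)) ≠ 0 := one_div_ne_zero (Nat.cast_ne_zero.mpr t.P_pos.ne')
  have hz : (((-((Real.pi * m) ^ 2) : ℝ)) : ℂ) ≠ 0 := by
    exact_mod_cast neg_ne_zero.mpr (pow_ne_zero 2 hx)
  rw [ev_Num, mul_eq_zero, mul_eq_zero, mul_eq_zero, mul_eq_zero, key _ h1, key _ (by omega),
    key _ (by omega)]
  unfold Dv
  constructor
  · rintro ((((h | h) | h) | h) | h)
    · exact absurd h hP
    · exact absurd h hz
    · exact Or.inl h
    · exact Or.inr (Or.inl h)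
    · exact Or.inr (Or.inr h)
  · rintro (h | h | h)
    · exact Or.inl (Or.inl (Or.inr h))
    · exact Or.inl (Or.inr h)
    · exact Or.inr h

theorem coeff_one_Num (t : Trip) : coeff 1 (Num t) = 1 / (t.P : ℂ) := by
  have e : Num t = X * (C (1 / (t.P : ℂ)) * (sc t.p * sc t.q * sc t.r)) := by
    unfold Num; ring
  rw [e, show (1 : ℕ) = 0 + 1 from rfl, coeff_succ_X_mul, coeff_zero_eq_constantCoeff_apply,
    map_mul, map_mul, map_mul, constantCoeff_sc, constantCoeff_sc, constantCoeff_sc]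
  simp

theorem G_eq (t u : Trip) (hP : t.P = u.P) (h : C (nu u) * G t = C (nu t) * G u) : t = u := by
  have hPu : (u.P : ℂ) ≠ 0 := Nat.cast_ne_zero.mpr u.P_pos.ne'
  have h1 : C (nu u) * F t = C (nu t) * F u := by
    ext k
    have h2 := congrArg (coeff k) h
    rw [coeff_C_mul, coeff_C_mul, G, G, coeff_mk, coeff_mk, hP] at h2
    rw [coeff_C_mul, coeff_C_mul]
    have hm : ((mu k : ℝ) : ℂ) * ((u.P : ℂ) / 2) ^ k ≠ 0 := by
      refine mul_ne_zero ?_ (pow_ne_zero _ (div_ne_zero hPu two_ne_zero))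
      exact_mod_cast (mu_pos k).ne'
    refine mul_right_cancel₀ hm ?_
    linear_combination h2
  have h3 : C (nu u) * Num t = C (nu t) * Num u := by
    have h4 : s⁻¹ ≠ 0 := by
      intro h5
      have := PowerSeries.mul_inv_cancel s constantCoeff_s
      rw [h5, mul_zero] at this
      exact zero_ne_one this
    refine mul_right_cancel₀ h4 ?_
    unfold F at h1
    rw [mul_assoc, mul_assoc]
    exact h1
  have h5 : nu u = nu t := by
    have h6 := congrArg (coeff 1) h3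
    rw [coeff_C_mul, coeff_C_mul, coeff_one_Num, coeff_one_Num, hP] at h6
    exact mul_right_cancel₀ (one_div_ne_zero hPu) h6
  have h7 : Num t = Num u := by
    rw [h5] at h3
    refine mul_left_cancel₀ ?_ h3
    intro h8
    have := congrArg (constantCoeff (R := ℂ)) h8
    simp at this
    exact nu_ne_zero t this
  refine trip_eq t u fun m hm => ?_
  rw [← ev_Num_zero t m hm, ← ev_Num_zero u m hm, h7]

/-! ### signs -/

/-- the sign of an orientation -/
noncomputable def sg (e : Bool) : ℂ := if e then 1 else -1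

theorem sg_sq (e : Bool) : sg e * sg e = 1 := by
  cases e <;> simp [sg]

theorem sg_ne (e : Bool) : sg e ≠ 0 := by
  cases e <;> simp [sg]

theorem norm_sg (e : Bool) : ‖sg e‖ = 1 := by
  cases e <;> simp [sg]

/-- the series of `±Σ(p,q,r)` -/
noncomputable def Gs (j : Bool × Trip) : PS := rescale (sg j.1) (G j.2)

theorem rescale_small (e : Bool) (A : ℝ) (f : PS) (h : Small A f) :
    Small A (rescale (sg e) f) := by
  obtain ⟨B, C, h1, h2, h3, h4⟩ := h
  refine ⟨B, C, h1, h2, h3, fun k => ?_⟩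
  rw [coeff_rescale, norm_mul, norm_pow, norm_sg, one_pow, one_mul]
  exact h4 k

theorem rescale_psi (e : Bool) (a : ℂ) : rescale (sg e) (psi a) = psi (sg e * a) := by
  ext k
  rw [coeff_rescale, psi, psi, coeff_mk, coeff_mk, mul_pow]
  ring

theorem rescale_C' (a c : ℂ) : rescale a (C c : PS) = C c := by
  ext k
  rw [coeff_rescale, coeff_C]
  split_ifs with h
  · subst h; simp
  · simp

theorem rescale_rescale_sg (e : Bool) (f : PS) : rescale (sg e) (rescale (sg e) f) = f := by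
  ext k
  rw [coeff_rescale, coeff_rescale, ← mul_assoc, ← mul_pow, sg_sq, one_pow, one_mul]

theorem Gs_dec (j : Bool × Trip) : Small ((j.2.P : ℝ) / Real.pi ^ 2)
    (Gs j - C (2 * nu j.2) * psi (sg j.1 * aa j.2)) := by
  have h := rescale_small j.1 _ _ (G_dec j.2)
  rw [map_sub, map_mul, rescale_psi, rescale_C'] at h
  exact h

theorem G_ne (t : Trip) : G t ≠ 0 := by
  intro h
  have h1 := congrArg (coeff 1) h
  rw [G, coeff_mk, map_zero] at h1
  have h2 : coeff 1 (F t) = 1 / (t.P : ℂ) := by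
    have e : F t = X * (C (1 / (t.P : ℂ)) * (sc t.p * sc t.q * sc t.r) * s⁻¹) := by
      unfold F Num; ring
    rw [e, show (1 : ℕ) = 0 + 1 from rfl, coeff_succ_X_mul, coeff_zero_eq_constantCoeff_apply,
      map_mul, map_mul, map_mul, map_mul, constantCoeff_sc, constantCoeff_sc, constantCoeff_sc,
      ← coeff_zero_eq_constantCoeff_apply (s⁻¹), coeff_s_inv]
    have : wc 0 = 1 := by unfold wc; norm_num
    rw [this]
    simp
  rw [h2, pow_one] at h1
  have hP : (t.P : ℂ) ≠ 0 := Nat.cast_ne_zero.mpr t.P_pos.ne'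
  have h3 : ((mu 1 : ℝ) : ℂ) ≠ 0 := by exact_mod_cast (mu_pos 1).ne'
  exact mul_ne_zero (mul_ne_zero (one_div_ne_zero hP) h3) (div_ne_zero hP two_ne_zero) h1

theorem Gs_ne (j : Bool × Trip) : Gs j ≠ 0 := by
  intro h
  have h1 := congrArg (rescale (sg j.1)) h
  rw [Gs, rescale_rescale_sg, map_zero] at h1
  exact G_ne j.2 h1

end Q57.LM
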