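import Mathlib
import Pool.Agent.Q57.LM.Core

/-! Multiplicative independence of the series `Gs j` modulo series of small growth. -/

open PowerSeries

set_option linter.unusedSectionVars false

namespace Q57.LM

open scoped Nat
open scoped Polynomial

theorem CoefIn_mul (S : Subring PS) {p q : PS[X]} (hp : CoefIn S p) (hq : CoefIn S q) :
    CoefIn S (p * q) := by
  intro i
  rw [Polynomial.coeff_mul]
  exact S.sum_mem fun x _ => S.mul_mem (hp _) (hq _)

theorem CoefIn_one (S : Subring PS) : CoefIn S (1 : PS[X]) := fun i => by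
  rw [Polynomial.coeff_one]; split_ifs
  · exact S.one_mem
  · exact S.zero_mem

theorem CoefIn_C (S : Subring PS) {c : PS} (hc : c ∈ S) : CoefIn S (Polynomial.C c) := fun i => by
  rw [Polynomial.coeff_C]; split_ifs
  · exact hc
  · exact S.zero_mem

theorem CoefIn_sub (S : Subring PS) {p q : PS[X]} (hp : CoefIn S p) (hq : CoefIn S q) :
    CoefIn S (p - q) := fun i => by
  rw [Polynomial.coeff_sub]; exact S.sub_mem (hp i) (hq i)

theorem CoefIn_pow (S : Subring PS) {p : PS[X]} (hp : CoefIn S p) (n : ℕ) : CoefIn S (p ^ n) := by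
  induction n with
  | zero => rw [pow_zero]; exact CoefIn_one S
  | succ n ih => rw [pow_succ]; exact CoefIn_mul S ih hp

theorem CoefIn_prod (S : Subring PS) {ι : Type*} (T : Finset ι) (p : ι → PS[X])
    (hp : ∀ i ∈ T, CoefIn S (p i)) : CoefIn S (∏ i ∈ T, p i) := by
  classical
  induction T using Finset.induction_on with
  | empty => rw [Finset.prod_empty]; exact CoefIn_one S
  | insert a T ha ih =>
    rw [Finset.prod_insert ha]
    exact CoefIn_mul S (hp a (Finset.mem_insert_self _ _))
      (ih fun i hi => hp i (Finset.mem_insert_of_mem hi))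

theorem CoefIn_lin (S : Subring PS) {c e : PS} (hc : c ∈ S) (he : e ∈ S) :
    CoefIn S (Polynomial.C c * Polynomial.X + Polynomial.C e) := fun i => by
  rw [Polynomial.coeff_add, Polynomial.coeff_C_mul, Polynomial.coeff_X, Polynomial.coeff_C]
  refine S.add_mem (S.mul_mem hc ?_) ?_
  · split_ifs
    · exact S.one_mem
    · exact S.zero_mem
  · split_ifs
    · exact he
    · exact S.zero_mem

theorem core (T : Finset (Bool × Trip)) (d d' : Bool × Trip → ℕ) (U U' : PS)
    (hU : ∀ A : ℝ, 0 < A → Small A U) (hU' : ∀ A : ℝ, 0 < A → Small A U') (hU'0 : U' ≠ 0)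
    (j0 : Bool × Trip) (hj0 : j0 ∈ T) (hd : d j0 ≠ 0) (hd' : d' j0 = 0)
    (hmax : ∀ j ∈ T, j.2.P ≤ j0.2.P)
    (h : U * ∏ j ∈ T, Gs j ^ d j = U' * ∏ j ∈ T, Gs j ^ d' j) : False := by
  classical
  set a : ℂ := sg j0.1 * aa j0.2 with ha
  have ha0 : a ≠ 0 := mul_ne_zero (sg_ne _) (aa_ne _)
  have hna : 2 * ‖a‖ = (j0.2.P : ℝ) / Real.pi ^ 2 := by
    rw [ha, norm_mul, norm_sg, one_mul, norm_aa]
  have hA : 0 < 2 * ‖a‖ := by positivity
  set S := Sm (2 * ‖a‖) hA with hS
  set S' := adj S (psi (-a)) with hS'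
  have htr : Tr S' (psi a) := tr_psi a ha0 hA
  set α0 := 2 * nu j0.2 with hα0
  have hα0ne : α0 ≠ 0 := mul_ne_zero two_ne_zero (nu_ne_zero _)
  set h0 := Gs j0 - C α0 * psi a with hh0
  set ρ : PS := -(C (1 / α0) * h0) with hρ
  have hex : ∀ j ∈ T, ∃ q : PS[X], CoefIn S' q ∧ q.eval (psi a) = Gs j ∧
      (j ≠ j0 → q.eval ρ ≠ 0) ∧ (j = j0 → q.eval ρ = 0) := by
    intro j hj
    have hdec := Gs_dec j
    rcases lt_or_eq_of_le (hmax j hj) with hP | hP
    · refine ⟨Polynomial.C (Gs j), CoefIn_C S' (le_adj S _ ?_), by simp, ?_, ?_⟩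
      · rw [hS, mem_Sm, hna]
        refine rescale_small _ _ _ (G_small _ _ ?_)
        have : (j.2.P : ℝ) < (j0.2.P : ℝ) := by exact_mod_cast hP
        exact div_lt_div_of_pos_right this (by positivity)
      · intro _
        rw [Polynomial.eval_C]
        exact Gs_ne j
      · rintro rfl
        exact absurd hP (lt_irrefl _)
    · have haa : aa j.2 = aa j0.2 := by unfold aa; rw [hP]
      rw [hP, ← hna] at hdec
      by_cases he : j.1 = j0.1
      · have hja : sg j.1 * aa j.2 = a := by rw [he, haa]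
        rw [hja] at hdec
        refine ⟨Polynomial.C (C (2 * nu j.2)) * Polynomial.X
          + Polynomial.C (Gs j - C (2 * nu j.2) * psi a),
          CoefIn_lin S' (le_adj S _ (C_mem_Sm _ _ _)) (le_adj S _ hdec), ?_, ?_, ?_⟩
        · simp
        · intro hne h2
          rw [Polynomial.eval_add, Polynomial.eval_mul, Polynomial.eval_C, Polynomial.eval_X,
            Polynomial.eval_C] at h2
          apply hne
          have h3 : C α0 * Gs j = C (2 * nu j.2) * Gs j0 := by
            have h4 : C α0 * (C (1 / α0) : PS) = 1 := by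
              rw [← map_mul, mul_one_div_cancel hα0ne, map_one]
            rw [hρ, hh0] at h2
            linear_combination (C α0) * h2
              + (C (2 * nu j.2)) * (Gs j0 - C α0 * psi a) * h4
          have h5 : C (nu j0.2) * G j.2 = C (nu j.2) * G j0.2 := by
            have h6 := congrArg (rescale (sg j0.1)) h3
            have h9 : rescale (sg j0.1) (C α0 * Gs j) = C α0 * G j.2 := by
              rw [RingHom.map_mul, rescale_C', Gs, he, rescale_rescale_sg]
            have h10 : rescale (sg j0.1) (C (2 * nu j.2) * Gs j0)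
                = C (2 * nu j.2) * G j0.2 := by
              rw [RingHom.map_mul, rescale_C', Gs, rescale_rescale_sg]
            rw [h9, h10, hα0, RingHom.map_mul, RingHom.map_mul] at h6
            have h7 : (C (2 : ℂ) : PS) ≠ 0 := by
              intro h8
              have := congrArg (constantCoeff (R := ℂ)) h8
              simp at this
            refine mul_left_cancel₀ h7 ?_
            linear_combination h6
          exact Prod.ext he (G_eq j.2 j0.2 hP h5)
        · rintro rfl
          rw [Polynomial.eval_add, Polynomial.eval_mul, Polynomial.eval_C, Polynomial.eval_X,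
            Polynomial.eval_C]
          have h4 : C α0 * (C (1 / α0) : PS) = 1 := by
            rw [← map_mul, mul_one_div_cancel hα0ne, map_one]
          rw [← hα0, ← hh0, hρ]
          linear_combination (-h0) * h4
      · have hja : sg j.1 * aa j.2 = -a := by
          rw [ha, haa]
          have : sg j.1 = -sg j0.1 := by
            rcases j with ⟨e, t⟩
            rcases j0 with ⟨e0, t0⟩
            simp only at he ⊢
            cases e <;> cases e0 <;> simp [sg] at he ⊢
          rw [this]; ring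
        rw [hja] at hdec
        refine ⟨Polynomial.C (Gs j), CoefIn_C S' ?_, by simp, ?_, ?_⟩
        · have : Gs j = C (2 * nu j.2) * psi (-a) + (Gs j - C (2 * nu j.2) * psi (-a)) := by ring
          rw [this]
          exact S'.add_mem (S'.mul_mem (le_adj S _ (C_mem_Sm _ _ _)) (self_mem_adj S _))
            (le_adj S _ hdec)
        · intro _
          rw [Polynomial.eval_C]
          exact Gs_ne j
        · rintro rfl
          exact absurd rfl he
  choose! q hq1 hq2 hq3 hq4 using hex
  set p : PS[X] := Polynomial.C U * ∏ j ∈ T, q j ^ d j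
    - Polynomial.C U' * ∏ j ∈ T, q j ^ d' j with hp
  have hpS : CoefIn S' p := by
    refine CoefIn_sub S' (CoefIn_mul S' (CoefIn_C S' (le_adj S _ (hU _ hA)))
      (CoefIn_prod S' _ _ fun i hi => CoefIn_pow S' (hq1 i hi) _))
      (CoefIn_mul S' (CoefIn_C S' (le_adj S _ (hU' _ hA)))
      (CoefIn_prod S' _ _ fun i hi => CoefIn_pow S' (hq1 i hi) _))
  have hp0 : p.eval (psi a) = 0 := by
    rw [hp, Polynomial.eval_sub, Polynomial.eval_mul, Polynomial.eval_mul, Polynomial.eval_C,
      Polynomial.eval_C, Polynomial.eval_prod, Polynomial.eval_prod]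
    have e1 : ∏ j ∈ T, (q j ^ d j).eval (psi a) = ∏ j ∈ T, Gs j ^ d j :=
      Finset.prod_congr rfl fun j hj => by rw [Polynomial.eval_pow, hq2 j hj]
    have e2 : ∏ j ∈ T, (q j ^ d' j).eval (psi a) = ∏ j ∈ T, Gs j ^ d' j :=
      Finset.prod_congr rfl fun j hj => by rw [Polynomial.eval_pow, hq2 j hj]
    rw [e1, e2, h, sub_self]
  have hpz := htr p hpS hp0
  have h1 : p.eval ρ = 0 := by rw [hpz, Polynomial.eval_zero]
  rw [hp, Polynomial.eval_sub, Polynomial.eval_mul, Polynomial.eval_mul, Polynomial.eval_C,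
    Polynomial.eval_C, Polynomial.eval_prod, Polynomial.eval_prod] at h1
  have e1 : ∏ j ∈ T, (q j ^ d j).eval ρ = 0 := by
    refine Finset.prod_eq_zero hj0 ?_
    rw [Polynomial.eval_pow, hq4 j0 hj0 rfl, zero_pow hd]
  rw [e1, mul_zero, zero_sub, neg_eq_zero] at h1
  refine (mul_ne_zero hU'0 (Finset.prod_ne_zero_iff.mpr fun j hj => ?_)) h1
  rw [Polynomial.eval_pow]
  by_cases hjj : j = j0
  · rw [hjj, hd', pow_zero]
    exact one_ne_zero
  · exact pow_ne_zero _ (hq3 j hj hjj)

/-- **Multiplicative independence** of the series `Gs j` modulo series of small growth. -/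
theorem indep (n n' : Bool × Trip →₀ ℕ) (U U' : PS)
    (hU : ∀ A : ℝ, 0 < A → Small A U) (hU' : ∀ A : ℝ, 0 < A → Small A U')
    (hU0 : U ≠ 0) (hU'0 : U' ≠ 0)
    (h : U * n.prod (fun j k => Gs j ^ k) = U' * n'.prod (fun j k => Gs j ^ k)) : n = n' := by
  classical
  by_contra hne
  set T := n.support ∪ n'.support with hT
  have e1 : n.prod (fun j k => Gs j ^ k) = ∏ j ∈ T, Gs j ^ n j :=
    Finsupp.prod_of_support_subset n Finset.subset_union_left _ (fun i _ => pow_zero _)
  have e2 : n'.prod (fun j k => Gs j ^ k) = ∏ j ∈ T, Gs j ^ n' j :=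
    Finsupp.prod_of_support_subset n' Finset.subset_union_right _ (fun i _ => pow_zero _)
  rw [e1, e2] at h
  -- cancel the common part
  have f1 : ∏ j ∈ T, Gs j ^ n j = (∏ j ∈ T, Gs j ^ (min (n j) (n' j)))
      * ∏ j ∈ T, Gs j ^ (n j - n' j) := by
    rw [← Finset.prod_mul_distrib]
    refine Finset.prod_congr rfl fun j _ => ?_
    rw [← pow_add]
    congr 1
    omega
  have f2 : ∏ j ∈ T, Gs j ^ n' j = (∏ j ∈ T, Gs j ^ (min (n j) (n' j)))
      * ∏ j ∈ T, Gs j ^ (n' j - n j) := by
    rw [← Finset.prod_mul_distrib]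
    refine Finset.prod_congr rfl fun j _ => ?_
    rw [← pow_add]
    congr 1
    omega
  have hD : (∏ j ∈ T, Gs j ^ (min (n j) (n' j))) ≠ 0 :=
    Finset.prod_ne_zero_iff.mpr fun j _ => pow_ne_zero _ (Gs_ne j)
  have h2 : U * ∏ j ∈ T, Gs j ^ (n j - n' j) = U' * ∏ j ∈ T, Gs j ^ (n' j - n j) := by
    refine mul_left_cancel₀ hD ?_
    rw [f1, f2] at h
    linear_combination h
  set T0 := T.filter (fun j => n j ≠ n' j) with hT0
  have g1 : ∏ j ∈ T, Gs j ^ (n j - n' j) = ∏ j ∈ T0, Gs j ^ (n j - n' j) := by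
    symm
    refine Finset.prod_subset (Finset.filter_subset _ _) fun j hj hj2 => ?_
    have : n j = n' j := by
      by_contra h3
      exact hj2 (Finset.mem_filter.mpr ⟨hj, h3⟩)
    rw [this, Nat.sub_self, pow_zero]
  have g2 : ∏ j ∈ T, Gs j ^ (n' j - n j) = ∏ j ∈ T0, Gs j ^ (n' j - n j) := by
    symm
    refine Finset.prod_subset (Finset.filter_subset _ _) fun j hj hj2 => ?_
    have : n j = n' j := by
      by_contra h3
      exact hj2 (Finset.mem_filter.mpr ⟨hj, h3⟩)
    rw [this, Nat.sub_self, pow_zero]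
  rw [g1, g2] at h2
  have hT0ne : T0.Nonempty := by
    by_contra h3
    rw [Finset.not_nonempty_iff_eq_empty] at h3
    apply hne
    ext j
    by_cases hj : j ∈ T
    · by_contra h4
      have : j ∈ T0 := Finset.mem_filter.mpr ⟨hj, h4⟩
      rw [h3] at this
      simp at this
    · rw [hT, Finset.mem_union, not_or, Finsupp.notMem_support_iff,
        Finsupp.notMem_support_iff] at hj
      rw [hj.1, hj.2]
  obtain ⟨j0, hj0, hmax⟩ := Finset.exists_max_image T0 (fun j => j.2.P) hT0ne
  have hj0n : n j0 ≠ n' j0 := (Finset.mem_filter.mp hj0).2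
  rcases lt_or_gt_of_ne hj0n with hlt | hgt
  · exact core T0 (fun j => n' j - n j) (fun j => n j - n' j) U' U hU' hU hU0 j0 hj0
      (by omega) (by omega) hmax h2.symm
  · exact core T0 (fun j => n j - n' j) (fun j => n' j - n j) U U' hU hU' hU'0 j0 hj0
      (by omega) (by omega) hmax h2

end Q57.LM
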