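import Mathlib
import Pool.Agent.Q57.LM.Indep

/-! Multiplicatively independent power series are separated by finitely many coefficients. -/

open PowerSeries

set_option linter.unusedSectionVars false

namespace Q57.LM

/-- units congruent to one modulo `X ^ N` -/
def Un (N : ℕ) : Subgroup PSˣ where
  carrier := {v | (X : PS) ^ N ∣ (v : PS) - 1}
  mul_mem' := by
    intro a b ha hb
    change (X : PS) ^ N ∣ ((a * b : PSˣ) : PS) - 1
    have e : ((a * b : PSˣ) : PS) - 1 = ((a : PS) - 1) * b + ((b : PS) - 1) := by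
      rw [Units.val_mul]; ring
    rw [e]
    exact dvd_add (Dvd.dvd.mul_right ha _) hb
  one_mem' := by
    change (X : PS) ^ N ∣ ((1 : PSˣ) : PS) - 1
    simp
  inv_mem' := by
    intro a ha
    change (X : PS) ^ N ∣ ((a⁻¹ : PSˣ) : PS) - 1
    have e : ((a⁻¹ : PSˣ) : PS) - 1 = -(((a : PS) - 1) * ((a⁻¹ : PSˣ) : PS)) := by
      have : (a : PS) * ((a⁻¹ : PSˣ) : PS) = 1 := Units.mul_inv a
      linear_combination this
    rw [e, dvd_neg]
    exact Dvd.dvd.mul_right ha _

theorem mem_Un (N : ℕ) (v : PSˣ) : v ∈ Un N ↔ (X : PS) ^ N ∣ (v : PS) - 1 := Iff.rfl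

theorem Un_sat (N k : ℕ) (hk : k ≠ 0) (v : PSˣ) (hv : constantCoeff (v : PS) = 1)
    (h : v ^ k ∈ Un N) : v ∈ Un N := by
  rw [mem_Un] at h ⊢
  rw [Units.val_pow_eq_pow_val] at h
  have e : (v : PS) ^ k - 1 = (∑ i ∈ Finset.range k, (v : PS) ^ i) * ((v : PS) - 1) :=
    (geom_sum_mul _ _).symm
  have hu : IsUnit (∑ i ∈ Finset.range k, (v : PS) ^ i) := by
    rw [PowerSeries.isUnit_iff_constantCoeff, map_sum]
    simp only [map_pow, hv, one_pow, Finset.sum_const, Finset.card_range, nsmul_eq_mul, mul_one]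
    exact isUnit_iff_ne_zero.mpr (Nat.cast_ne_zero.mpr hk)
  rw [e] at h
  exact (hu.dvd_mul_left).mp h

section

variable {ι : Type} [Fintype ι] (u : ι → PSˣ)

/-- the product of integral powers -/
noncomputable def Ph (a : ι → ℤ) : PSˣ := ∏ j, u j ^ a j

theorem Ph_add (a b : ι → ℤ) : Ph u (a + b) = Ph u a * Ph u b := by
  unfold Ph
  rw [← Finset.prod_mul_distrib]
  exact Finset.prod_congr rfl fun j _ => zpow_add _ _ _

theorem Ph_zero : Ph u 0 = 1 := by
  unfold Ph; simp

theorem Ph_nsmul (k : ℕ) (a : ι → ℤ) : Ph u (k • a) = Ph u a ^ k := by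
  induction k with
  | zero => rw [zero_smul, Ph_zero, pow_zero]
  | succ k ih => rw [add_smul, one_smul, Ph_add, ih, pow_succ]

theorem Ph_neg (a : ι → ℤ) : Ph u (-a) = (Ph u a)⁻¹ := by
  rw [_root_.eq_inv_iff_mul_eq_one, ← Ph_add, neg_add_cancel, Ph_zero]

theorem Ph_const (hu : ∀ j, constantCoeff (u j : PS) = 1) (a : ι → ℤ) :
    constantCoeff (Ph u a : PS) = 1 := by
  have hinv : ∀ v : PSˣ, constantCoeff (v : PS) = 1 → constantCoeff ((v⁻¹ : PSˣ) : PS) = 1 := by
    intro v hv
    have h1 : (v : PS) * ((v⁻¹ : PSˣ) : PS) = 1 := Units.mul_inv v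
    have h2 := congrArg (constantCoeff (R := ℂ)) h1
    rw [map_mul, hv, one_mul, map_one] at h2
    exact h2
  have hz : ∀ (v : PSˣ) (m : ℤ), constantCoeff (v : PS) = 1 →
      constantCoeff ((v ^ m : PSˣ) : PS) = 1 := by
    intro v m hv
    cases m with
    | ofNat m =>
      rw [Int.ofNat_eq_natCast, zpow_natCast, Units.val_pow_eq_pow_val, map_pow, hv, one_pow]
    | negSucc m =>
      rw [zpow_negSucc]
      refine hinv _ ?_
      rw [Units.val_pow_eq_pow_val, map_pow, hv, one_pow]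
  unfold Ph
  rw [Units.coe_prod, map_prod]
  exact Finset.prod_eq_one fun j _ => hz _ _ (hu j)

/-- exponents of relations modulo `X ^ N` -/
def La (N : ℕ) : AddSubgroup (ι → ℤ) where
  carrier := {a | Ph u a ∈ Un N}
  add_mem' := by
    intro a b ha hb
    change Ph u (a + b) ∈ Un N
    rw [Ph_add]
    exact (Un N).mul_mem ha hb
  zero_mem' := by
    change Ph u 0 ∈ Un N
    rw [Ph_zero]; exact (Un N).one_mem
  neg_mem' := by
    intro a ha
    change Ph u (-a) ∈ Un N
    rw [Ph_neg]; exact (Un N).inv_mem ha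

theorem mem_La (N : ℕ) (a : ι → ℤ) : a ∈ La u N ↔ (X : PS) ^ N ∣ (Ph u a : PS) - 1 := Iff.rfl

/-- the rational span -/
noncomputable def Wsp (N : ℕ) : Submodule ℚ (ι → ℚ) :=
  Submodule.span ℚ ((fun (a : ι → ℤ) (j : ι) => ((a j : ℤ) : ℚ)) '' (La u N : Set (ι → ℤ)))

theorem mem_Wsp (N : ℕ) (x : ι → ℚ) (hx : x ∈ Wsp u N) :
    ∃ k : ℕ, k ≠ 0 ∧ ∃ b ∈ La u N, ∀ j, (k : ℚ) * x j = ((b j : ℤ) : ℚ) := by
  unfold Wsp at hx
  induction hx using Submodule.span_induction with
  | mem x hx =>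
    obtain ⟨a, ha, rfl⟩ := hx
    exact ⟨1, one_ne_zero, a, ha, fun j => by simp⟩
  | zero => exact ⟨1, one_ne_zero, 0, (La u N).zero_mem, fun j => by simp⟩
  | add x y _ _ hx hy =>
    obtain ⟨k, hk, b, hb, h1⟩ := hx
    obtain ⟨l, hl, c, hc, h2⟩ := hy
    refine ⟨k * l, mul_ne_zero hk hl, l • b + k • c,
      (La u N).add_mem ((La u N).nsmul_mem hb l) ((La u N).nsmul_mem hc k), fun j => ?_⟩
    rw [Pi.add_apply, Pi.add_apply, Pi.smul_apply, Pi.smul_apply]
    push_cast
    rw [nsmul_eq_mul, nsmul_eq_mul]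
    push_cast
    rw [← h1, ← h2]
    ring
  | smul q x _ hx =>
    obtain ⟨k, hk, b, hb, h1⟩ := hx
    refine ⟨k * q.den, mul_ne_zero hk q.den_nz, q.num • b, (La u N).zsmul_mem hb _,
      fun j => ?_⟩
    rw [Pi.smul_apply, Pi.smul_apply, smul_eq_mul, smul_eq_mul]
    push_cast
    rw [← h1]
    have : (q.den : ℚ) * q = q.num := by rw [mul_comm]; exact Rat.mul_den_eq_num q
    linear_combination ((k : ℚ) * x j) * this

theorem exists_trunc (hu : ∀ j, constantCoeff (u j : PS) = 1)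
    (hind : ∀ a : ι → ℤ, Ph u a = 1 → a = 0) :
    ∃ N : ℕ, ∀ a : ι → ℤ, (X : PS) ^ N ∣ (Ph u a : PS) - 1 → a = 0 := by
  have hmono : ∀ N M : ℕ, N ≤ M → Wsp u M ≤ Wsp u N := by
    intro N M h
    unfold Wsp
    refine Submodule.span_mono (Set.image_mono ?_)
    intro a ha
    exact (pow_dvd_pow _ h).trans ha
  let f : ℕ →o (Submodule ℚ (ι → ℚ))ᵒᵈ :=
    { toFun := fun N => OrderDual.toDual (Wsp u N)
      monotone' := fun N M h => OrderDual.toDual_le_toDual.mpr (hmono N M h) }
  obtain ⟨N, hN⟩ := IsArtinian.monotone_stabilizes f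
  refine ⟨N, fun a ha => hind a ?_⟩
  have hW : ∀ M, N ≤ M → Wsp u N = Wsp u M := fun M h => OrderDual.toDual.injective (hN M h)
  have hall : ∀ M, N ≤ M → (X : PS) ^ M ∣ (Ph u a : PS) - 1 := by
    intro M hM
    have h1 : (fun j => ((a j : ℤ) : ℚ)) ∈ Wsp u N := Submodule.subset_span ⟨a, ha, rfl⟩
    rw [hW M hM] at h1
    obtain ⟨k, hk, b, hb, h2⟩ := mem_Wsp u M _ h1
    have h3 : b = k • a := by
      funext j
      have := h2 j
      rw [Pi.smul_apply, nsmul_eq_mul]
      exact_mod_cast this.symm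
    rw [h3] at hb
    have h4 : Ph u a ^ k ∈ Un M := by
      rw [← Ph_nsmul]; exact hb
    exact Un_sat M k hk _ (Ph_const u hu a) h4
  have h5 : (Ph u a : PS) - 1 = 0 := by
    ext i
    obtain ⟨g, hg⟩ := hall (N + i + 1) (by omega)
    rw [hg, map_zero, coeff_X_pow_mul', if_neg (by omega)]
  exact Units.ext (by rw [Units.val_one]; exact sub_eq_zero.mp h5)

end

/-- finitely many coefficients separate the products of members of a finite set -/
theorem trunc_sep {J : Type} (τ : J → PS) (h1 : ∀ j, constantCoeff (τ j) = 1)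
    (hind : ∀ n n' : J →₀ ℕ, n.prod (fun j k => τ j ^ k) = n'.prod (fun j k => τ j ^ k) → n = n')
    (H : Finset J) : ∃ N : ℕ, ∀ n n' : J →₀ ℕ, n.support ⊆ H → n'.support ⊆ H →
      (∀ i < N, coeff i (n.prod (fun j k => τ j ^ k)) = coeff i (n'.prod (fun j k => τ j ^ k))) →
      n = n' := by
  classical
  have hun : ∀ j : H, IsUnit (τ j) := fun j => by
    rw [PowerSeries.isUnit_iff_constantCoeff, h1]; exact isUnit_one
  let u : H → PSˣ := fun j => (hun j).unit
  have hu : ∀ j, (u j : PS) = τ j := fun j => (hun j).unit_spec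
  have hprod : ∀ n : J →₀ ℕ, n.support ⊆ H → n.prod (fun j k => τ j ^ k)
      = ((Ph u (fun j => (n j : ℤ)) : PSˣ) : PS) := by
    intro n hn
    rw [Finsupp.prod_of_support_subset n hn _ (fun i _ => pow_zero _), ← Finset.prod_coe_sort H]
    unfold Ph
    rw [Units.coe_prod]
    refine Finset.prod_congr rfl fun j _ => ?_
    rw [zpow_natCast, Units.val_pow_eq_pow_val, hu]
  have hind' : ∀ a : H → ℤ, Ph u a = 1 → a = 0 := by
    intro a ha
    let n : J →₀ ℕ := Finsupp.onFinset H (fun j => if h : j ∈ H then (a ⟨j, h⟩).toNat else 0)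
      (fun j hj => by
        by_contra h
        simp [h] at hj)
    let n' : J →₀ ℕ := Finsupp.onFinset H (fun j => if h : j ∈ H then (-a ⟨j, h⟩).toNat else 0)
      (fun j hj => by
        by_contra h
        simp [h] at hj)
    have hn : ∀ j : H, n j = (a j).toNat := fun j => by simp [n]
    have hn' : ∀ j : H, n' j = (-a j).toNat := fun j => by simp [n']
    have hns : n.support ⊆ H := Finsupp.support_onFinset_subset
    have hns' : n'.support ⊆ H := Finsupp.support_onFinset_subset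
    have e : (fun j : H => (n j : ℤ)) = a + (fun j : H => (n' j : ℤ)) := by
      funext j
      rw [Pi.add_apply, hn, hn']
      omega
    have h2 : n = n' := by
      apply hind
      rw [hprod n hns, hprod n' hns', e, Ph_add, ha, one_mul]
    funext j
    have h3 := congrFun e j
    rw [h2] at h3
    simp only [Pi.add_apply] at h3
    rw [Pi.zero_apply]
    omega
  obtain ⟨N, hN⟩ := exists_trunc u (fun j => by rw [hu]; exact h1 _) hind'
  refine ⟨N, fun n n' hn hn' h => ?_⟩
  have h2 : (fun j : H => (n j : ℤ) - (n' j : ℤ)) = 0 := by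
    apply hN
    have h3 : (X : PS) ^ N ∣ n.prod (fun j k => τ j ^ k) - n'.prod (fun j k => τ j ^ k) := by
      rw [PowerSeries.X_pow_dvd_iff]
      intro i hi
      rw [map_sub, h i hi, sub_self]
    rw [hprod n hn, hprod n' hn'] at h3
    have h4 : (fun j : H => (n j : ℤ)) = (fun j : H => (n j : ℤ) - (n' j : ℤ))
        + (fun j : H => (n' j : ℤ)) := by
      funext j
      rw [Pi.add_apply]; ring
    have h5 : ((Ph u (fun j : H => (n j : ℤ)) : PSˣ) : PS)
        - ((Ph u (fun j : H => (n' j : ℤ)) : PSˣ) : PS)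
        = (((Ph u (fun j : H => (n j : ℤ) - (n' j : ℤ)) : PSˣ) : PS) - 1)
          * ((Ph u (fun j : H => (n' j : ℤ)) : PSˣ) : PS) := by
      rw [h4, Ph_add, Units.val_mul]
      ring
    rw [h5] at h3
    exact ((Units.isUnit _).dvd_mul_right).mp h3
  ext j
  by_cases hj : j ∈ H
  · have := congrFun h2 ⟨j, hj⟩
    simp only [Pi.zero_apply] at this
    omega
  · have a1 : n j = 0 := by
      by_contra h6
      exact hj (hn (Finsupp.mem_support_iff.mpr h6))
    have a2 : n' j = 0 := by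
      by_contra h6
      exact hj (hn' (Finsupp.mem_support_iff.mpr h6))
    rw [a1, a2]

end Q57.LM
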