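import Mathlib
import Pool.Agent.Q57.LM.Trunc

/-! From the surgery formula to the independence of the Ohtsuki series. -/

open PowerSeries

set_option linter.unusedSectionVars false

namespace Q57.LM

open scoped Nat

theorem small_exp (c : ℂ) (A : ℝ) (hA : 0 < A) : Small A (rescale c (exp ℂ)) := by
  refine ⟨A / 2, Real.exp (‖c‖ / (A / 2)), by linarith, by linarith, (Real.exp_pos _).le,
    fun k => ?_⟩
  rw [coeff_rescale, coeff_exp, norm_mul, norm_pow]
  have h1 : ‖(algebraMap ℚ ℂ) (1 / (k ! : ℚ))‖ = 1 / (k ! : ℝ) := by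
    simp
  rw [h1]
  have hA2 : 0 < A / 2 := by linarith
  have h2 : (‖c‖ / (A / 2)) ^ k / (k ! : ℝ) ≤ Real.exp (‖c‖ / (A / 2)) :=
    Real.pow_div_factorial_le_exp _ (by positivity) k
  have h3 : (1 : ℝ) ≤ (k ! : ℝ) := by exact_mod_cast Nat.factorial_pos k
  calc ‖c‖ ^ k * (1 / (k ! : ℝ)) = ((‖c‖ / (A / 2)) ^ k / (k ! : ℝ)) * (A / 2) ^ k * 1 := by
        rw [div_pow]; field_simp
    _ ≤ Real.exp (‖c‖ / (A / 2)) * (A / 2) ^ k * (k ! : ℝ) := by gcongr

theorem exp_ne (c : ℂ) : rescale c (exp ℂ) ≠ 0 := by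
  intro h
  have := congrArg (coeff 0) h
  rw [coeff_rescale, coeff_exp] at this
  simp at this

theorem coeff_G_zero (t : Trip) : coeff 0 (G t) = 0 := by
  have e : F t = X * (C (1 / (t.P : ℂ)) * (sc t.p * sc t.q * sc t.r) * s⁻¹) := by
    unfold F Num; ring
  rw [G, coeff_mk, e, coeff_zero_X_mul]
  simp

theorem coeff_G_one (t : Trip) : coeff 1 (G t) = 1 / 2 := by
  have h2 : coeff 1 (F t) = 1 / (t.P : ℂ) := by
    have e : F t = X * (C (1 / (t.P : ℂ)) * (sc t.p * sc t.q * sc t.r) * s⁻¹) := by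
      unfold F Num; ring
    rw [e, show (1 : ℕ) = 0 + 1 from rfl, coeff_succ_X_mul, coeff_zero_eq_constantCoeff_apply,
      map_mul, map_mul, map_mul, map_mul, constantCoeff_sc, constantCoeff_sc, constantCoeff_sc,
      ← coeff_zero_eq_constantCoeff_apply (s⁻¹), coeff_s_inv]
    have : wc 0 = 1 := by unfold wc; norm_num
    rw [this]
    simp
  have hP : (t.P : ℂ) ≠ 0 := Nat.cast_ne_zero.mpr t.P_pos.ne'
  have h3 : mu 1 = 1 := by
    have := mu_succ 0
    rw [mu_zero] at this
    simpa using this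
  rw [G, coeff_mk, h2, h3]
  push_cast
  field_simp

theorem coeff_one_mul' (f g : PS) : coeff 1 (f * g)
    = coeff 0 f * coeff 1 g + coeff 1 f * coeff 0 g := by
  rw [coeff_mul, Finset.Nat.sum_antidiagonal_eq_sum_range_succ
    (fun i j => coeff i f * coeff j g), Finset.sum_range_succ, Finset.sum_range_one]

theorem tau_const (t : Trip) (c : ℂ) (τ : PS)
    (h : (exp ℂ - 1) * τ = 2 * rescale c (exp ℂ) * G t) : constantCoeff τ = 1 := by
  have h1 := congrArg (coeff 1) h
  have e2 : (2 : PS) * rescale c (exp ℂ) * G t = C (2 : ℂ) * (rescale c (exp ℂ) * G t) := by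
    rw [← map_ofNat (C : ℂ →+* PS) 2]; ring
  rw [e2, coeff_C_mul, coeff_one_mul', coeff_one_mul', coeff_G_zero, coeff_G_one, map_sub, map_sub,
    coeff_one, coeff_one, coeff_exp, coeff_exp, coeff_rescale, coeff_exp] at h1
  rw [← coeff_zero_eq_constantCoeff_apply]
  simp at h1
  simpa using h1

/-- the two oriented series -/
noncomputable def tau (τ : Trip → PS) (j : Bool × Trip) : PS := rescale (sg j.1) (τ j.2)

/-- **The main theorem** on the series given by the surgery formula. -/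
theorem tau_indep (τ : Trip → PS) (c : Trip → ℂ)
    (h : ∀ t, (exp ℂ - 1) * τ t = 2 * rescale (c t) (exp ℂ) * G t)
    (n n' : Bool × Trip →₀ ℕ)
    (he : n.prod (fun j k => tau τ j ^ k) = n'.prod (fun j k => tau τ j ^ k)) : n = n' := by
  classical
  set E : Bool × Trip → PS := fun j => rescale (sg j.1) (exp ℂ - 1) with hE
  set V : Bool × Trip → PS := fun j => rescale (sg j.1) (2 * rescale (c j.2) (exp ℂ)) with hV
  have hrel : ∀ j, E j * tau τ j = V j * Gs j := by
    intro j
    rw [hE, hV, tau, Gs]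
    simp only
    rw [← RingHom.map_mul, ← RingHom.map_mul, h]
  have hinj : ∀ (e : Bool) (f : PS), f ≠ 0 → rescale (sg e) f ≠ 0 := by
    intro e f hf h1
    have := congrArg (rescale (sg e)) h1
    rw [rescale_rescale_sg, map_zero] at this
    exact hf this
  have hE0 : ∀ j, E j ≠ 0 := by
    intro j
    refine hinj _ _ ?_
    intro h1
    have := congrArg (coeff 1) h1
    rw [map_sub, coeff_exp, coeff_one] at this
    simp at this
  have h2ne : (2 : PS) ≠ 0 := two_ne_zero
  have hV0 : ∀ j, V j ≠ 0 := fun j => hinj _ _ (mul_ne_zero h2ne (exp_ne _))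
  have hES : ∀ (A : ℝ) (hA : 0 < A) (j), E j ∈ Sm A hA := by
    intro A hA j
    refine rescale_small _ _ _ ?_
    have h1 : exp ℂ ∈ Sm A hA := by
      have := small_exp 1 A hA
      rwa [rescale_one] at this
    exact (Sm A hA).sub_mem h1 (Sm A hA).one_mem
  have hVS : ∀ (A : ℝ) (hA : 0 < A) (j), V j ∈ Sm A hA := by
    intro A hA j
    refine rescale_small _ _ _ ?_
    have h1 : rescale (c j.2) (exp ℂ) ∈ Sm A hA := small_exp _ A hA
    have h2 : (2 : PS) ∈ Sm A hA := by
      have := C_mem_Sm A hA 2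
      rwa [map_ofNat] at this
    exact (Sm A hA).mul_mem h2 h1
  have hpE : ∀ m : Bool × Trip →₀ ℕ, m.prod (fun j k => E j ^ k) ≠ 0 := fun m =>
    Finset.prod_ne_zero_iff.mpr fun j _ => pow_ne_zero _ (hE0 j)
  have hpV : ∀ m : Bool × Trip →₀ ℕ, m.prod (fun j k => V j ^ k) ≠ 0 := fun m =>
    Finset.prod_ne_zero_iff.mpr fun j _ => pow_ne_zero _ (hV0 j)
  have hsE : ∀ (A : ℝ) (hA : 0 < A) (m : Bool × Trip →₀ ℕ),
      m.prod (fun j k => E j ^ k) ∈ Sm A hA := fun A hA m =>
    Subring.prod_mem _ fun j _ => Subring.pow_mem _ (hES A hA j) _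
  have hsV : ∀ (A : ℝ) (hA : 0 < A) (m : Bool × Trip →₀ ℕ),
      m.prod (fun j k => V j ^ k) ∈ Sm A hA := fun A hA m =>
    Subring.prod_mem _ fun j _ => Subring.pow_mem _ (hVS A hA j) _
  have hm : ∀ m : Bool × Trip →₀ ℕ, m.prod (fun j k => E j ^ k) * m.prod (fun j k => tau τ j ^ k)
      = m.prod (fun j k => V j ^ k) * m.prod (fun j k => Gs j ^ k) := by
    intro m
    rw [← Finsupp.prod_mul, ← Finsupp.prod_mul]
    refine Finsupp.prod_congr fun j _ => ?_
    rw [← mul_pow, ← mul_pow, hrel]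
  refine indep n n' (n'.prod (fun j k => E j ^ k) * n.prod (fun j k => V j ^ k))
    (n.prod (fun j k => E j ^ k) * n'.prod (fun j k => V j ^ k))
    (fun A hA => (Sm A hA).mul_mem (hsE A hA _) (hsV A hA _))
    (fun A hA => (Sm A hA).mul_mem (hsE A hA _) (hsV A hA _))
    (mul_ne_zero (hpE _) (hpV _)) (mul_ne_zero (hpE _) (hpV _)) ?_
  calc n'.prod (fun j k => E j ^ k) * n.prod (fun j k => V j ^ k) * n.prod (fun j k => Gs j ^ k)
      = n'.prod (fun j k => E j ^ k) * (n.prod (fun j k => V j ^ k)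
          * n.prod (fun j k => Gs j ^ k)) := by ring
    _ = n'.prod (fun j k => E j ^ k) * (n.prod (fun j k => E j ^ k)
          * n.prod (fun j k => tau τ j ^ k)) := by rw [hm]
    _ = n.prod (fun j k => E j ^ k) * (n'.prod (fun j k => E j ^ k)
          * n'.prod (fun j k => tau τ j ^ k)) := by rw [he]; ring
    _ = n.prod (fun j k => E j ^ k) * (n'.prod (fun j k => V j ^ k)
          * n'.prod (fun j k => Gs j ^ k)) := by rw [hm]
    _ = _ := by ring

end Q57.LM
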